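import Mathlib

set_option autoImplicit false

open Set Filter Topology MeasureTheory

namespace Pool.Agent.Lib.MP_b8145f_gt

/-- `f` admits no pair of mutually dense sets on which it is separated by a gap. -/
def Frag {X : Type*} [TopologicalSpace X] (f : X → ℝ) : Prop :=
  ∀ (a b : ℝ) (D0 D1 : Set X), a < b → D0 ⊆ closure D1 → D1 ⊆ closure D0 →
    (∀ x ∈ D0, f x ≤ a) → (∀ x ∈ D1, b ≤ f x) → D0 = ∅

theorem Frag.neg {X : Type*} [TopologicalSpace X] {f : X → ℝ} (h : Frag f) :
    Frag (fun x => - f x) := by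
  intro a b D0 D1 hab h01 h10 h0 h1
  have h2 : D1 = ∅ := by
    refine h (-b) (-a) D1 D0 (by linarith) h10 h01 ?_ ?_
    · intro x hx
      have := h1 x hx
      simp only at this
      linarith
    · intro x hx
      have := h0 x hx
      simp only at this
      linarith
  rw [h2, closure_empty] at h01
  exact subset_empty_iff.1 h01

theorem frag_of_limit {X : Type*} [MetricSpace X] [CompleteSpace X] {f : X → ℝ}
    (g : ℕ → X → ℝ) (hg : ∀ n, Continuous (g n))
    (hlim : ∀ x, Tendsto (fun n => g n x) atTop (𝓝 (f x))) : Frag f := by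
  intro a b D0 D1 hab h01 h10 h0 h1
  by_contra hne
  have hne' : D0.Nonempty := nonempty_iff_ne_empty.2 hne
  set Q : Set X := closure D0 with hQ
  have hQc : IsClosed Q := isClosed_closure
  have : CompleteSpace Q := hQc.completeSpace_coe
  have : Nonempty Q := (hne'.mono subset_closure).to_subtype
  set c1 : ℝ := (2 * a + b) / 3 with hc1
  set c2 : ℝ := (a + 2 * b) / 3 with hc2
  let U : ℕ → Set Q := fun N => {x | ∃ n, N ≤ n ∧ c2 < g n x}
  let V : ℕ → Set Q := fun N => {x | ∃ n, N ≤ n ∧ g n x < c1}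
  have hUo : ∀ N, IsOpen (U N) := by
    intro N
    have : U N = ⋃ n, ⋃ (_ : N ≤ n), {x : Q | c2 < g n x} := by
      ext x; simp [U]
    rw [this]
    refine isOpen_iUnion fun n => isOpen_iUnion fun _ => ?_
    exact isOpen_lt continuous_const ((hg n).comp continuous_subtype_val)
  have hVo : ∀ N, IsOpen (V N) := by
    intro N
    have : V N = ⋃ n, ⋃ (_ : N ≤ n), {x : Q | g n x < c1} := by
      ext x; simp [V]
    rw [this]
    refine isOpen_iUnion fun n => isOpen_iUnion fun _ => ?_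
    exact isOpen_lt ((hg n).comp continuous_subtype_val) continuous_const
  have hQ1 : Q ⊆ closure D1 := closure_minimal h01 isClosed_closure
  have hUd : ∀ N, Dense (U N) := by
    intro N
    rw [Subtype.dense_iff]
    refine hQ1.trans (closure_mono ?_)
    intro x hx
    refine ⟨⟨x, h10 hx⟩, ?_, rfl⟩
    have hlt : c2 < f x := by have := h1 x hx; linarith
    have := (hlim x).eventually (lt_mem_nhds hlt)
    obtain ⟨n, hn1, hn2⟩ := ((eventually_ge_atTop N).and this).exists
    exact ⟨n, hn1, hn2⟩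
  have hVd : ∀ N, Dense (V N) := by
    intro N
    rw [Subtype.dense_iff]
    refine closure_mono ?_
    intro x hx
    refine ⟨⟨x, subset_closure hx⟩, ?_, rfl⟩
    have hlt : f x < c1 := by have := h0 x hx; linarith
    have := (hlim x).eventually (gt_mem_nhds hlt)
    obtain ⟨n, hn1, hn2⟩ := ((eventually_ge_atTop N).and this).exists
    exact ⟨n, hn1, hn2⟩
  have hd : Dense (⋂ N, (U N ∩ V N)) :=
    dense_iInter_of_isOpen (fun N => (hUo N).inter (hVo N))
      (fun N => (hUd N).inter_of_isOpen_left (hVd N) (hUo N))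
  obtain ⟨x, hx⟩ := hd.nonempty
  rw [mem_iInter] at hx
  have hle1 : c2 ≤ f x := by
    by_contra hlt
    push Not at hlt
    have := (hlim x).eventually (gt_mem_nhds hlt)
    obtain ⟨N, hN⟩ := eventually_atTop.1 this
    obtain ⟨n, hn1, hn2⟩ := (hx N).1
    have := hN n hn1
    linarith
  have hle2 : f x ≤ c1 := by
    by_contra hlt
    push Not at hlt
    have := (hlim x).eventually (lt_mem_nhds hlt)
    obtain ⟨N, hN⟩ := eventually_atTop.1 this
    obtain ⟨n, hn1, hn2⟩ := (hx N).2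
    have := hN n hn1
    linarith
  linarith

/-- The common final contradiction. -/
theorem final_contra {X K : Type*} [TopologicalSpace X] [TopologicalSpace K] [CompactSpace K]
    (e : X → K → ℝ) (he : ∀ x, Continuous (e x)) (hF : ∀ k, Frag (fun x => e x k))
    (u : ℕ → K) {a b : ℝ} (hab : a < b) (D0 D1 : Set X)
    (h01 : D0 ⊆ closure D1) (h10 : D1 ⊆ closure D0)
    (h0 : ∀ x ∈ D0, ∀ᶠ n in atTop, e x (u n) ≤ a)
    (h1 : ∀ x ∈ D1, ∀ᶠ n in atTop, b ≤ e x (u n)) : D0 = ∅ := by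
  obtain ⟨k, hk⟩ := exists_clusterPt_of_compactSpace (map u atTop)
  have key : ∀ C : Set K, IsClosed C → (∀ᶠ n in atTop, u n ∈ C) → k ∈ C := by
    intro C hC hev
    have : ClusterPt k (𝓟 C) := hk.mono (le_principal_iff.2 (mem_map.2 hev))
    exact hC.closure_subset (mem_closure_iff_clusterPt.2 this)
  refine hF k a b D0 D1 hab h01 h10 ?_ ?_
  · intro x hx
    exact key {k | e x k ≤ a} (isClosed_le (he x) continuous_const) (h0 x hx)
  · intro x hx
    exact key {k | b ≤ e x k} (isClosed_le continuous_const (he x)) (h1 x hx)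

theorem Frag.shrink_ge {X : Type*} [MetricSpace X] {f : X → ℝ} (h : Frag f) {a b : ℝ}
    (hab : a < b) {Z : Set X} (hZ : Z.Nonempty) (hb : ∀ x ∈ Z, b ≤ f x) :
    ∃ p ∈ Z, ∃ r > 0, ∀ x ∈ closure Z, dist x p < r → a ≤ f x := by
  by_contra hcon
  push Not at hcon
  have h2 : {x | x ∈ closure Z ∧ f x < a} = ∅ := by
    refine h a b _ Z hab (fun x hx => hx.1) ?_ (fun x hx => hx.2.le) hb
    intro p hp
    rw [Metric.mem_closure_iff]
    intro r hr
    obtain ⟨x, hx1, hx2, hx3⟩ := hcon p hp r hr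
    exact ⟨x, ⟨hx1, hx3⟩, by rwa [dist_comm]⟩
  obtain ⟨p, hp⟩ := hZ
  obtain ⟨x, hx1, -, hx3⟩ := hcon p hp 1 one_pos
  have : x ∈ {x | x ∈ closure Z ∧ f x < a} := ⟨hx1, hx3⟩
  rw [h2] at this
  exact this

theorem Frag.shrink_le {X : Type*} [MetricSpace X] {f : X → ℝ} (h : Frag f) {a b : ℝ}
    (hab : a < b) {Z : Set X} (hZ : Z.Nonempty) (hb : ∀ x ∈ Z, f x ≤ a) :
    ∃ p ∈ Z, ∃ r > 0, ∀ x ∈ closure Z, dist x p < r → f x ≤ b := by
  obtain ⟨p, hp, r, hr, h2⟩ := h.neg.shrink_ge (a := -b) (b := -a) (by linarith) hZ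
    (fun x hx => by have := hb x hx; linarith)
  refine ⟨p, hp, r, hr, fun x hx hd => ?_⟩
  have := h2 x hx hd
  linarith

/-- Fubini-type inequality. -/
theorem fubini_bound {Ω : Type*} [MeasurableSpace Ω] (μ : Measure Ω) [IsProbabilityMeasure μ]
    (S : Set (Ω × Ω)) (hS : MeasurableSet S) (I : Set Ω) (hI : MeasurableSet I) (c d : ℝ)
    (hc : 0 ≤ c) (hd : 0 ≤ d)
    (h1 : ∀ f ∈ I, c ≤ μ.real (Prod.mk f ⁻¹' S))
    (h2 : ∀ z, μ.real ((fun f => (f, z)) ⁻¹' S) ≤ d) : c * μ.real I ≤ d := by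
  have e1 : ENNReal.ofReal c * μ I ≤ μ.prod μ S := by
    rw [Measure.prod_apply hS, ← lintegral_indicator_const hI]
    refine lintegral_mono fun f => ?_
    by_cases hf : f ∈ I
    · rw [indicator_of_mem hf]
      exact ENNReal.ofReal_le_of_le_toReal (h1 f hf)
    · rw [indicator_of_notMem hf]
      exact zero_le
  have e2 : μ.prod μ S ≤ ENNReal.ofReal d := by
    rw [Measure.prod_apply_symm hS]
    calc ∫⁻ z, μ ((fun f => (f, z)) ⁻¹' S) ∂μ ≤ ∫⁻ _, ENNReal.ofReal d ∂μ := by
          refine lintegral_mono fun z => ?_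
          exact (ENNReal.le_ofReal_iff_toReal_le (measure_ne_top _ _) hd).2 (h2 z)
      _ = ENNReal.ofReal d := by simp
  have e3 := e1.trans e2
  have e4 : ENNReal.ofReal (c * μ.real I) ≤ ENNReal.ofReal d := by
    rw [ENNReal.ofReal_mul hc, ofReal_measureReal]
    exact e3
  exact (ENNReal.ofReal_le_ofReal_iff hd).1 e4

end Pool.Agent.Lib.MP_b8145f_gt
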