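import Pool.Agent.Lib.MP_b8145f_gt.Sep

set_option autoImplicit false

open Set Filter Topology MeasureTheory

namespace Pool.Agent.Lib.MP_b8145f_gt

theorem exists_nat_basis (X : Type*) [MetricSpace X] [SecondCountableTopology X] :
    ∃ b : ℕ → Set X, ∀ x, ∀ r > 0, ∃ n, x ∈ b n ∧ b n ⊆ Metric.ball x r := by
  have hc : (insert ∅ (TopologicalSpace.countableBasis X)).Countable :=
    (TopologicalSpace.countable_countableBasis X).insert _
  obtain ⟨b, hb⟩ := hc.exists_eq_range (insert_nonempty _ _)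
  refine ⟨b, fun x r hr => ?_⟩
  obtain ⟨t, ht, hxt, hsub⟩ :=
    (TopologicalSpace.isBasis_countableBasis X).mem_nhds_iff.1 (Metric.ball_mem_nhds x hr)
  have : t ∈ range b := hb ▸ mem_insert_of_mem _ ht
  obtain ⟨n, rfl⟩ := this
  exact ⟨n, hxt, hsub⟩

theorem step_finite {X Ω : Type*} [MetricSpace X] [MeasurableSpace Ω] {μ : Measure Ω}
    (g E : X → Set Ω) (hg : ∀ y, MeasurableSet (g y)) (hE : ∀ y, MeasurableSet (E y))
    (hadd : ∀ x B r, MeasurableSet B → μ B ≠ 0 → B ⊆ g x → 0 < r →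
      ∃ y, dist y x < r ∧ μ (B ∩ E y ∩ g y) ≠ 0)
    (T : Set X) (hT : T.Finite) (B : Set Ω) (hB : MeasurableSet B) (hB0 : μ B ≠ 0)
    (hBT : ∀ x ∈ T, B ⊆ g x) (r : ℝ) (hr : 0 < r) :
    ∃ (T' : Set X) (B' : Set Ω), T'.Finite ∧ MeasurableSet B' ∧ μ B' ≠ 0 ∧ B' ⊆ B ∧
      (∀ y ∈ T', B' ⊆ E y ∩ g y) ∧ ∀ x ∈ T, ∃ y ∈ T', dist y x < r := by
  induction T, hT using Set.Finite.induction_on with
  | empty => exact ⟨∅, B, finite_empty, hB, hB0, Subset.rfl, by simp, by simp⟩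
  | @insert x T _ _ ih =>
    obtain ⟨T', B', h1, h2, h3, h4, h5, h6⟩ := ih (fun x hx => hBT x (mem_insert_of_mem _ hx))
    obtain ⟨y, hy1, hy2⟩ := hadd x B' r h2 h3 (h4.trans (hBT x (mem_insert _ _))) hr
    refine ⟨insert y T', B' ∩ E y ∩ g y, h1.insert _, (h2.inter (hE y)).inter (hg y), hy2,
      (inter_subset_left.trans inter_subset_left).trans h4, ?_, ?_⟩
    · intro y' hy'
      rcases hy' with rfl | hy'
      · intro z hz
        exact ⟨hz.1.2, hz.2⟩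
      · exact (inter_subset_left.trans inter_subset_left).trans (h5 y' hy')
    · intro x' hx'
      rcases hx' with rfl | hx'
      · exact ⟨y, mem_insert _ _, hy1⟩
      · obtain ⟨y', hy', hd⟩ := h6 x' hx'
        exact ⟨y', mem_insert_of_mem _ hy', hd⟩

/-- State of the first construction. -/
structure StB {X Ω : Type*} [MeasurableSpace Ω] (μ : Measure Ω) (g A L : X → Set Ω) where
  D0 : Set X
  D1 : Set X
  B : Set Ω
  f0 : D0.Finite
  f1 : D1.Finite
  hm : MeasurableSet B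
  h0 : μ B ≠ 0
  s0 : ∀ y ∈ D0, B ⊆ L y ∩ g y
  s1 : ∀ y ∈ D1, B ⊆ A y ∩ g y

theorem StB.step {X Ω : Type*} [MetricSpace X] [MeasurableSpace Ω] {μ : Measure Ω}
    {g A L : X → Set Ω} (hg : ∀ y, MeasurableSet (g y)) (hA : ∀ y, MeasurableSet (A y))
    (hL : ∀ y, MeasurableSet (L y))
    (haddA : ∀ x B r, MeasurableSet B → μ B ≠ 0 → B ⊆ g x → 0 < r →
      ∃ y, dist y x < r ∧ μ (B ∩ A y ∩ g y) ≠ 0)
    (haddL : ∀ x B r, MeasurableSet B → μ B ≠ 0 → B ⊆ g x → 0 < r →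
      ∃ y, dist y x < r ∧ μ (B ∩ L y ∩ g y) ≠ 0)
    (s : StB μ g A L) (r : ℝ) (hr : 0 < r) :
    ∃ s' : StB μ g A L, s.D0 ⊆ s'.D0 ∧ s.D1 ⊆ s'.D1 ∧
      (∀ x ∈ s.D0, ∃ y ∈ s'.D1, dist y x < r) ∧ (∀ x ∈ s.D1, ∃ y ∈ s'.D0, dist y x < r) := by
  obtain ⟨T1, B1, a1, a2, a3, a4, a5, a6⟩ := step_finite g A hg hA haddA s.D0 s.f0 s.B s.hm s.h0
    (fun x hx => (s.s0 x hx).trans inter_subset_right) r hr
  obtain ⟨T0, B0, b1, b2, b3, b4, b5, b6⟩ := step_finite g L hg hL haddL s.D1 s.f1 B1 a2 a3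
    (fun x hx => a4.trans ((s.s1 x hx).trans inter_subset_right)) r hr
  refine ⟨⟨s.D0 ∪ T0, s.D1 ∪ T1, B0, s.f0.union b1, s.f1.union a1, b2, b3, ?_, ?_⟩,
    subset_union_left, subset_union_left, ?_, ?_⟩
  · rintro y (hy | hy)
    · exact (b4.trans a4).trans (s.s0 y hy)
    · exact b5 y hy
  · rintro y (hy | hy)
    · exact (b4.trans a4).trans (s.s1 y hy)
    · exact b4.trans (a5 y hy)
  · intro x hx
    obtain ⟨y, hy, hd⟩ := a6 x hx
    exact ⟨y, Or.inr hy, hd⟩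
  · intro x hx
    obtain ⟨y, hy, hd⟩ := b6 x hx
    exact ⟨y, Or.inr hy, hd⟩

/-- Countable type, with a gap. -/
theorem sep_univ {X K : Type*} [MetricSpace X] [SecondCountableTopology X]
    [TopologicalSpace K] [CompactSpace K] [MeasurableSpace K] [OpensMeasurableSpace K]
    (μ : Measure K) [IsFiniteMeasure μ]
    (e : X → K → ℝ) (he : ∀ x, Continuous (e x)) (hF : ∀ k, Frag (fun x => e x k))
    {a b : ℝ} (hab : a < b) :
    Sep μ (fun y => {k | b < e y k}) (fun y => {k | e y k < a}) univ univ := by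
  set A : X → Set K := fun y => {k | b < e y k} with hAdef
  set L : X → Set K := fun y => {k | e y k < a} with hLdef
  have hA : ∀ y, MeasurableSet (A y) := fun y =>
    (isOpen_lt continuous_const (he y)).measurableSet
  have hL : ∀ y, MeasurableSet (L y) := fun y =>
    (isOpen_lt (he y) continuous_const).measurableSet
  by_contra hcon
  obtain ⟨bs, hbs⟩ := exists_nat_basis X
  choose M hMm hMs hMx using fun n => exists_max_sep (μ := μ) A L (bs n)
  let g : X → Set K := fun y => (⋃ n, ⋃ (_ : y ∈ bs n), M n)ᶜ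
  have hg : ∀ y, MeasurableSet (g y) := fun y =>
    (MeasurableSet.iUnion fun n => MeasurableSet.iUnion fun _ => hMm n).compl
  have hns : ∀ x B r, MeasurableSet B → μ B ≠ 0 → B ⊆ g x → 0 < r →
      ∃ n, bs n ⊆ Metric.ball x r ∧ ¬ Sep μ A L (bs n) B := by
    intro x B r hB hB0 hBg hr
    obtain ⟨n, hxn, hn⟩ := hbs x r hr
    refine ⟨n, hn, fun hs => hB0 ?_⟩
    have h1 := hMx n B hB hs
    have h2 : B \ M n = B := by
      refine sdiff_eq_left.2 (disjoint_left.2 fun z hz hzM => ?_)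
      exact hBg hz (mem_iUnion.2 ⟨n, mem_iUnion.2 ⟨hxn, hzM⟩⟩)
    rwa [h2] at h1
  have haddA : ∀ x B r, MeasurableSet B → μ B ≠ 0 → B ⊆ g x → 0 < r →
      ∃ y, dist y x < r ∧ μ (B ∩ A y ∩ g y) ≠ 0 := by
    intro x B r hB hB0 hBg hr
    obtain ⟨n, hn, hs⟩ := hns x B r hB hB0 hBg hr
    obtain ⟨y, hy, h⟩ := sep_extension bs M hMm hMs hs
    exact ⟨y, hn hy, h⟩
  have haddL : ∀ x B r, MeasurableSet B → μ B ≠ 0 → B ⊆ g x → 0 < r →
      ∃ y, dist y x < r ∧ μ (B ∩ L y ∩ g y) ≠ 0 := by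
    intro x B r hB hB0 hBg hr
    obtain ⟨n, hn, hs⟩ := hns x B r hB hB0 hBg hr
    obtain ⟨y, hy, h⟩ := sep_extension bs M hMm (fun n => (hMs n).swap) (fun h => hs h.swap)
    exact ⟨y, hn hy, h⟩
  obtain ⟨y0, -, hy0⟩ := sep_extension bs M hMm (fun n => (hMs n).swap) (fun h => hcon h.swap)
  let s0 : StB μ g A L := ⟨{y0}, ∅, univ ∩ L y0 ∩ g y0, finite_singleton _, finite_empty,
    (MeasurableSet.univ.inter (hL y0)).inter (hg y0), hy0,
    (by rintro y rfl z hz; exact ⟨hz.1.2, hz.2⟩), by simp⟩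
  choose F hF0 hF1 hF2 hF3 using fun (s : StB μ g A L) (n : ℕ) =>
    StB.step hg hA hL haddA haddL s (1 / ((n : ℝ) + 1)) (by positivity)
  let s : ℕ → StB μ g A L := fun n => Nat.rec s0 (fun n t => F t n) n
  have hs : ∀ n, s (n + 1) = F (s n) n := fun n => rfl
  have hm0 : Monotone fun n => (s n).D0 :=
    monotone_nat_of_le_succ fun n => by rw [hs]; exact hF0 _ _
  have hm1 : Monotone fun n => (s n).D1 :=
    monotone_nat_of_le_succ fun n => by rw [hs]; exact hF1 _ _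
  choose u hu using fun n => nonempty_of_measure_ne_zero (s n).h0
  have hfin := final_contra e he hF u hab (⋃ n, (s n).D0) (⋃ n, (s n).D1) ?_ ?_ ?_ ?_
  · have : y0 ∈ ⋃ n, (s n).D0 := mem_iUnion.2 ⟨0, rfl⟩
    rw [hfin] at this
    exact this
  · intro x hx
    obtain ⟨n, hn⟩ := mem_iUnion.1 hx
    rw [Metric.mem_closure_iff]
    intro r hr
    obtain ⟨m, hm⟩ := exists_nat_one_div_lt hr
    obtain ⟨y, hy, hd⟩ := hF2 (s (max n m)) (max n m) x (hm0 (le_max_left n m) hn)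
    refine ⟨y, mem_iUnion.2 ⟨max n m + 1, by rw [hs]; exact hy⟩, ?_⟩
    rw [dist_comm]
    refine hd.trans_le (le_trans ?_ hm.le)
    exact Nat.one_div_le_one_div (le_max_right n m)
  · intro x hx
    obtain ⟨n, hn⟩ := mem_iUnion.1 hx
    rw [Metric.mem_closure_iff]
    intro r hr
    obtain ⟨m, hm⟩ := exists_nat_one_div_lt hr
    obtain ⟨y, hy, hd⟩ := hF3 (s (max n m)) (max n m) x (hm1 (le_max_left n m) hn)
    refine ⟨y, mem_iUnion.2 ⟨max n m + 1, by rw [hs]; exact hy⟩, ?_⟩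
    rw [dist_comm]
    refine hd.trans_le (le_trans ?_ hm.le)
    exact Nat.one_div_le_one_div (le_max_right n m)
  · intro x hx
    obtain ⟨n, hn⟩ := mem_iUnion.1 hx
    filter_upwards [eventually_ge_atTop n] with m hm
    exact le_of_lt (((s m).s0 x (hm0 hm hn)) (hu m)).1
  · intro x hx
    obtain ⟨n, hn⟩ := mem_iUnion.1 hx
    filter_upwards [eventually_ge_atTop n] with m hm
    exact le_of_lt (((s m).s1 x (hm1 hm hn)) (hu m)).1

end Pool.Agent.Lib.MP_b8145f_gt
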