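import Pool.Agent.Lib.MP_b8145f_gt.Kernel

set_option autoImplicit false
set_option linter.unusedSectionVars false

open Set Filter Topology MeasureTheory

namespace Pool.Agent.Lib.MP_b8145f_gt

theorem exists_lattice {K : Type*} [TopologicalSpace K] {𝓕0 : Set (Set K)} (hc : 𝓕0.Countable)
    (hcl : ∀ F ∈ 𝓕0, IsClosed F) :
    ∃ 𝓕 : Set (Set K), 𝓕.Countable ∧ (∀ F ∈ 𝓕, IsClosed F) ∧ 𝓕0 ⊆ 𝓕 ∧ ∅ ∈ 𝓕 ∧ univ ∈ 𝓕 ∧
      (∀ F ∈ 𝓕, ∀ G ∈ 𝓕, F ∪ G ∈ 𝓕) ∧ (∀ F ∈ 𝓕, ∀ G ∈ 𝓕, F ∩ G ∈ 𝓕) := by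
  let G : ℕ → Set (Set K) := fun n => Nat.rec (insert ∅ (insert univ 𝓕0))
    (fun _ T => T ∪ image2 (· ∪ ·) T T ∪ image2 (· ∩ ·) T T) n
  have hG : ∀ n, G (n + 1) = G n ∪ image2 (· ∪ ·) (G n) (G n) ∪ image2 (· ∩ ·) (G n) (G n) :=
    fun n => rfl
  have hG0 : G 0 = insert ∅ (insert univ 𝓕0) := rfl
  have hmono : Monotone G := monotone_nat_of_le_succ fun n => by
    rw [hG]
    exact subset_union_left.trans subset_union_left
  refine ⟨⋃ n, G n, countable_iUnion fun n => ?_, ?_, ?_, ?_, ?_, ?_, ?_⟩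
  · induction n with
    | zero => exact (hc.insert _).insert _
    | succ n ih =>
      rw [hG]
      exact (ih.union (ih.image2 ih _)).union (ih.image2 ih _)
  · intro F hF
    obtain ⟨n, hn⟩ := mem_iUnion.1 hF
    clear hF
    induction n generalizing F with
    | zero =>
      rcases hn with rfl | rfl | hn
      · exact isClosed_empty
      · exact isClosed_univ
      · exact hcl F hn
    | succ n ih =>
      rw [hG] at hn
      rcases hn with (hn | ⟨F1, h1, F2, h2, rfl⟩) | ⟨F1, h1, F2, h2, rfl⟩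
      · exact ih F hn
      · exact (ih F1 h1).union (ih F2 h2)
      · exact (ih F1 h1).inter (ih F2 h2)
  · intro F hF
    exact mem_iUnion.2 ⟨0, mem_insert_of_mem _ (mem_insert_of_mem _ hF)⟩
  · exact mem_iUnion.2 ⟨0, mem_insert _ _⟩
  · exact mem_iUnion.2 ⟨0, mem_insert_of_mem _ (mem_insert _ _)⟩
  · intro F hF F' hF'
    obtain ⟨n, hn⟩ := mem_iUnion.1 hF
    obtain ⟨m, hm⟩ := mem_iUnion.1 hF'
    refine mem_iUnion.2 ⟨max n m + 1, ?_⟩
    rw [hG]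
    exact Or.inl (Or.inr (mem_image2_of_mem (hmono (le_max_left n m) hn)
      (hmono (le_max_right n m) hm)))
  · intro F hF F' hF'
    obtain ⟨n, hn⟩ := mem_iUnion.1 hF
    obtain ⟨m, hm⟩ := mem_iUnion.1 hF'
    refine mem_iUnion.2 ⟨max n m + 1, ?_⟩
    rw [hG]
    exact Or.inr (mem_image2_of_mem (hmono (le_max_left n m) hn) (hmono (le_max_right n m) hm))

section

variable {K : Type*} [tK : TopologicalSpace K] [CompactSpace K] [T2Space K] [MeasurableSpace K]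
  [OpensMeasurableSpace K] (μ : Measure K) [IsProbabilityMeasure μ] [μ.Regular]

theorem exists_compact_real {S : Set K} (hS : MeasurableSet S) {δ : ℝ} (hδ : 0 < δ) :
    ∃ C, C ⊆ S ∧ IsCompact C ∧ μ.real (S \ C) < δ := by
  obtain ⟨C, h1, h2, h3⟩ := hS.exists_isCompact_sdiff_lt (μ := μ) (measure_ne_top _ _)
    (ε := ENNReal.ofReal δ) (by simpa using hδ)
  exact ⟨C, h1, h2, ENNReal.toReal_lt_of_lt_ofReal h3⟩

/-- Every regular probability measure is countably determined. -/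
theorem countably_determined {X : Type*} [MetricSpace X] [CompleteSpace X]
    [SecondCountableTopology X] (e : X → K → ℝ) (hind : IsInducing (fun k x => e x k))
    (hF : ∀ k, Frag (fun x => e x k)) :
    ∃ 𝓕 : Set (Set K), 𝓕.Countable ∧ (∀ F ∈ 𝓕, IsClosed F) ∧ ∅ ∈ 𝓕 ∧
      (∀ F ∈ 𝓕, ∀ G ∈ 𝓕, F ∪ G ∈ 𝓕) ∧
      ∀ U, IsOpen U → ∀ δ > 0, ∃ F ∈ 𝓕, F ⊆ U ∧ μ.real (U \ F) < δ := by
  have he : ∀ x, Continuous (e x) := fun x => (continuous_apply x).comp hind.continuous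
  obtain ⟨𝓕1, a1, a2, a3⟩ := inner_upper μ e he hF
  obtain ⟨𝓕2, b1, b2, b3⟩ := inner_lower μ e he hF
  obtain ⟨𝓕, h1, h2, h3, h4, h5, h6, h7⟩ := exists_lattice (a1.union b1)
    (fun F hF => hF.elim (a2 F) (b2 F))
  refine ⟨𝓕, h1, h2, h4, h6, ?_⟩
  let P : Set K → Prop := fun U => ∀ δ > 0, ∃ F ∈ 𝓕, F ⊆ U ∧ μ.real (U \ F) < δ
  have Punion : ∀ U V, P U → P V → P (U ∪ V) := by
    intro U V hU hV δ hδ
    obtain ⟨F, hF, hF1, hF2⟩ := hU (δ / 2) (by positivity)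
    obtain ⟨G, hG, hG1, hG2⟩ := hV (δ / 2) (by positivity)
    refine ⟨F ∪ G, h6 F hF G hG, union_subset_union hF1 hG1, ?_⟩
    have : μ.real ((U ∪ V) \ (F ∪ G)) ≤ μ.real (U \ F) + μ.real (V \ G) := by
      refine real_le_add ?_
      intro z hz
      simp only [Set.mem_sdiff, mem_union] at hz ⊢
      tauto
    linarith
  have Pinter : ∀ U V, P U → P V → P (U ∩ V) := by
    intro U V hU hV δ hδ
    obtain ⟨F, hF, hF1, hF2⟩ := hU (δ / 2) (by positivity)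
    obtain ⟨G, hG, hG1, hG2⟩ := hV (δ / 2) (by positivity)
    refine ⟨F ∩ G, h7 F hF G hG, inter_subset_inter hF1 hG1, ?_⟩
    have : μ.real ((U ∩ V) \ (F ∩ G)) ≤ μ.real (U \ F) + μ.real (V \ G) := by
      refine real_le_add ?_
      intro z hz
      simp only [Set.mem_sdiff, mem_union, mem_inter_iff] at hz ⊢
      tauto
    linarith
  have Pempty : P ∅ := fun δ hδ => ⟨∅, h4, Subset.rfl, by simpa using hδ⟩
  have Pfin : ∀ T : Set (Set K), T.Finite → (∀ U ∈ T, P U) → P (⋃₀ T) := by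
    intro T hT
    induction T, hT using Set.Finite.induction_on with
    | empty => intro _; simpa using Pempty
    | @insert U T _ _ ih =>
      intro h
      rw [sUnion_insert]
      exact Punion _ _ (h U (mem_insert _ _)) (ih fun V hV => h V (mem_insert_of_mem _ hV))
  have o1 : ∀ x c, IsOpen (e x ⁻¹' Ioi c) := fun x c => isOpen_Ioi.preimage (he x)
  have o2 : ∀ x c, IsOpen (e x ⁻¹' Iio c) := fun x c => isOpen_Iio.preimage (he x)
  intro U hU
  obtain ⟨V, hV, rfl⟩ := hind.isOpen_iff.1 hU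
  let t : TopologicalSpace K :=
    { IsOpen := fun U => IsOpen[tK] U ∧ P U
      isOpen_univ := ⟨isOpen_univ, fun δ hδ => ⟨univ, h5, Subset.rfl, by simpa using hδ⟩⟩
      isOpen_inter := fun U V hU hV => ⟨hU.1.inter hV.1, Pinter U V hU.2 hV.2⟩
      isOpen_sUnion := by
        intro T hT
        have ho : IsOpen[tK] (⋃₀ T) := isOpen_sUnion fun U hU => (hT U hU).1
        refine ⟨ho, fun δ hδ => ?_⟩
        obtain ⟨C, c1, c2, c3⟩ := exists_compact_real μ ho.measurableSet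
          (show 0 < δ / 2 by positivity)
        rw [sUnion_eq_biUnion] at c1
        obtain ⟨T', t1, t2, t3⟩ := c2.elim_finite_subcover_image (fun U hU => (hT U hU).1) c1
        rw [← sUnion_eq_biUnion] at t3
        obtain ⟨F, hF, hF1, hF2⟩ := Pfin T' t2 (fun U hU => (hT U (t1 hU)).2) (δ / 2)
          (by positivity)
        refine ⟨F, hF, hF1.trans (sUnion_subset_sUnion t1), ?_⟩
        have : μ.real (⋃₀ T \ F) ≤ μ.real (⋃₀ T \ C) + μ.real (⋃₀ T' \ F) := by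
          refine real_le_add ?_
          intro z hz
          by_cases hzC : z ∈ C
          · exact Or.inr ⟨t3 hzC, hz.2⟩
          · exact Or.inl ⟨hz.1, hzC⟩
        linarith }
  have hcont : Continuous[t, _] (fun k x => e x k) := by
    refine @continuous_pi _ _ _ t _ _ fun x => ?_
    refine (@OrderTopology.continuous_iff ℝ K _ _ _ t _).2 fun c => ⟨⟨?_, ?_⟩, ⟨?_, ?_⟩⟩
    · exact o1 x c
    · intro δ hδ
      obtain ⟨F, hF, hF1, hF2⟩ := a3 x c δ hδ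
      exact ⟨F, h3 (Or.inl hF), hF1, hF2⟩
    · exact o2 x c
    · intro δ hδ
      obtain ⟨F, hF, hF1, hF2⟩ := b3 x c δ hδ
      exact ⟨F, h3 (Or.inr hF), hF1, hF2⟩
  exact (@IsOpen.preimage _ _ t _ _ hcont V hV).2

/-- Countably determined measures have metrizable-like support. -/
theorem mls_of_cd {𝓕 : Set (Set K)} (hc : 𝓕.Countable) (hcl : ∀ F ∈ 𝓕, IsClosed F) (h0 : ∅ ∈ 𝓕)
    (hu : ∀ F ∈ 𝓕, ∀ G ∈ 𝓕, F ∪ G ∈ 𝓕)
    (hap : ∀ U, IsOpen U → ∀ δ > 0, ∃ F ∈ 𝓕, F ⊆ U ∧ μ.real (U \ F) < δ) :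
    ∃ 𝒜 : ℕ → Set (Set K),
      (∀ i, (𝒜 i).Finite ∧ (∀ A ∈ 𝒜 i, IsCompact A) ∧ (𝒜 i).PairwiseDisjoint id) ∧
      ∀ 𝒰 : Set (Set K), (∀ U ∈ 𝒰, IsOpen U) → ⋃₀ 𝒰 = univ → ∀ ε : ℝ, 0 < ε →
        ∃ i, (∀ A ∈ 𝒜 i, ∃ U ∈ 𝒰, A ⊆ U) ∧ μ (⋃₀ 𝒜 i)ᶜ < ENNReal.ofReal ε := by
  have hex : ∀ (n : ℕ) (F G : Set K), ∃ C, IsCompact C ∧ C ⊆ F \ G ∧
      (F ∈ 𝓕 → G ∈ 𝓕 → μ.real ((F \ G) \ C) < 1 / ((n : ℝ) + 1)) := by
    intro n F G
    by_cases h : F ∈ 𝓕 ∧ G ∈ 𝓕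
    · obtain ⟨C, h1, h2, h3⟩ := exists_compact_real μ
        ((hcl F h.1).measurableSet.diff (hcl G h.2).measurableSet)
        (show (0 : ℝ) < 1 / ((n : ℝ) + 1) by positivity)
      exact ⟨C, h2, h1, fun _ _ => h3⟩
    · exact ⟨∅, isCompact_empty, empty_subset _, fun h1 h2 => (h ⟨h1, h2⟩).elim⟩
  choose Lc hL1 hL2 hL3 using hex
  let 𝓛 : Set (Set K) := ⋃ n, image2 (Lc n) 𝓕 𝓕
  have hLc : 𝓛.Countable := countable_iUnion fun n => hc.image2 hc _
  let 𝔉 : Set (Set (Set K)) := {T | (T.Finite ∧ T ⊆ 𝓛) ∧ T.PairwiseDisjoint id}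
  have hFc : 𝔉.Countable := (countable_ofPred_finite_subset hLc).mono fun T hT => hT.1
  have hFne : 𝔉.Nonempty := ⟨∅, ⟨finite_empty, empty_subset _⟩, pairwiseDisjoint_empty⟩
  obtain ⟨𝒜, hA⟩ := hFc.exists_eq_range hFne
  have hmem : ∀ i, 𝒜 i ∈ 𝔉 := fun i => hA ▸ mem_range_self i
  refine ⟨𝒜, fun i => ⟨(hmem i).1.1, ?_, (hmem i).2⟩, ?_⟩
  · intro A hA
    obtain ⟨n, F, -, G, -, rfl⟩ := mem_iUnion.1 ((hmem i).1.2 hA)
    exact hL1 n F G
  · intro 𝒰 hU hcov ε hε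
    have key : ∀ T : Set (Set K), T.Finite → (∀ U ∈ T, IsOpen U) → ∀ δ > 0,
        ∃ B ∈ 𝔉, (∀ A ∈ B, ∃ U ∈ T, A ⊆ U) ∧ ∃ F ∈ 𝓕, ⋃₀ B ⊆ F ∧ F ⊆ ⋃₀ T ∧
          μ.real (⋃₀ T \ ⋃₀ B) < δ := by
      intro T hT
      induction T, hT using Set.Finite.induction_on with
      | empty =>
        intro _ δ hδ
        exact ⟨∅, ⟨⟨finite_empty, empty_subset _⟩, pairwiseDisjoint_empty⟩, by simp, ∅, h0,
          by simp, by simp, by simpa using hδ⟩
      | @insert U T _ _ ih =>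
        intro ho δ hδ
        obtain ⟨B, hB, hB1, F, hF, hF1, hF2, hF3⟩ :=
          ih (fun V hV => ho V (mem_insert_of_mem _ hV)) (δ / 3) (by positivity)
        obtain ⟨G, hG, hG1, hG2⟩ := hap U (ho U (mem_insert _ _)) (δ / 3) (by positivity)
        obtain ⟨n, hn⟩ := exists_nat_one_div_lt (show 0 < δ / 3 by positivity)
        have hC := hL3 n G F hG hF
        refine ⟨insert (Lc n G F) B, ⟨⟨hB.1.1.insert _, insert_subset ?_ hB.1.2⟩, ?_⟩, ?_,
          G ∪ F, hu G hG F hF, ?_, ?_, ?_⟩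
        · exact mem_iUnion.2 ⟨n, mem_image2_of_mem hG hF⟩
        · refine hB.2.insert fun A hA _ => ?_
          refine disjoint_left.2 fun z hz hzA => ?_
          exact (hL2 n G F hz).2 (hF1 (mem_sUnion_of_mem hzA hA))
        · rintro A (rfl | hA)
          · exact ⟨U, mem_insert _ _, ((hL2 n G F).trans sdiff_subset).trans hG1⟩
          · obtain ⟨V, hV, hAV⟩ := hB1 A hA
            exact ⟨V, mem_insert_of_mem _ hV, hAV⟩
        · rw [sUnion_insert]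
          exact union_subset_union ((hL2 n G F).trans sdiff_subset) hF1
        · rw [sUnion_insert]
          exact union_subset_union hG1 hF2
        · rw [sUnion_insert, sUnion_insert]
          have : μ.real ((U ∪ ⋃₀ T) \ (Lc n G F ∪ ⋃₀ B)) ≤
              μ.real (⋃₀ T \ ⋃₀ B) + μ.real (U \ G) + μ.real ((G \ F) \ Lc n G F) := by
            refine real_le_add3 ?_
            intro z hz
            have h1 : z ∈ F → z ∈ ⋃₀ T := fun h => hF2 h
            simp only [Set.mem_sdiff, mem_union] at hz ⊢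
            tauto
          linarith
    have hcov' : (univ : Set K) ⊆ ⋃ U ∈ 𝒰, U := by rw [← sUnion_eq_biUnion, hcov]
    obtain ⟨T, t1, t2, t3⟩ := isCompact_univ.elim_finite_subcover_image hU hcov'
    rw [← sUnion_eq_biUnion, univ_subset_iff] at t3
    obtain ⟨B, hB, hB1, F, -, -, -, hF3⟩ := key T t2 (fun U h => hU U (t1 h)) ε hε
    rw [hA] at hB
    obtain ⟨i, rfl⟩ := hB
    refine ⟨i, fun A hA => ?_, ?_⟩
    · obtain ⟨U, hU, h⟩ := hB1 A hA
      exact ⟨U, t1 hU, h⟩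
    · rw [t3, ← compl_eq_univ_sdiff] at hF3
      exact (ENNReal.lt_ofReal_iff_toReal_lt (measure_ne_top _ _)).2 hF3

end

end Pool.Agent.Lib.MP_b8145f_gt
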