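import Pool.Agent.Lib.MP_b8145f_gt.Tree

set_option autoImplicit false
set_option linter.unusedSectionVars false

open Set Filter Topology MeasureTheory

namespace Pool.Agent.Lib.MP_b8145f_gt

section Kernel

variable {X K : Type*} [MetricSpace X] [CompleteSpace X] [SecondCountableTopology X]
    [TopologicalSpace K] [CompactSpace K] [MeasurableSpace K] [OpensMeasurableSpace K]
    (μ : Measure K) [IsProbabilityMeasure μ]

theorem upper_approx (g : K → ℝ) (hg : Continuous g) (c : ℝ) {δ : ℝ} (hδ : 0 < δ) :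
    ∃ N : ℕ, μ.real ({k | c < g k} \ {k | c + 1 / ((N : ℝ) + 1) < g k}) < δ := by
  obtain ⟨N, hN⟩ := exists_accumulate_lt (μ := μ) (fun n : ℕ => {k | c + 1 / ((n : ℝ) + 1) < g k})
    (fun n => (isOpen_lt continuous_const hg).measurableSet) (T := {k | c < g k}) (by
      rw [sdiff_eq_empty.2]
      · simp
      · intro k hk
        obtain ⟨n, hn⟩ := exists_nat_one_div_lt (show 0 < g k - c from sub_pos.2 hk)
        exact mem_iUnion.2 ⟨n, by show c + _ < g k; linarith⟩) hδ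
  refine ⟨N, lt_of_le_of_lt (measureReal_mono (sdiff_subset_sdiff_right ?_)) hN⟩
  intro k hk
  rw [mem_accumulate] at hk
  obtain ⟨n, hn, hk⟩ := hk
  have h1 : (1 : ℝ) / ((N : ℝ) + 1) ≤ 1 / ((n : ℝ) + 1) := Nat.one_div_le_one_div hn
  have h2 : c + 1 / ((n : ℝ) + 1) < g k := hk
  show c + _ < g k
  linarith

theorem approx_upper (e : X → K → ℝ) (he : ∀ x, Continuous (e x))
    (hF : ∀ k, Frag (fun x => e x k)) (b : ℝ) :
    ∃ 𝒞 : Set (Set K), 𝒞.Countable ∧ ∀ y, ∀ δ > 0, ∃ C ∈ 𝒞,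
      μ.real ({k | b < e y k} \ C) < δ ∧ μ.real (C \ {k | b < e y k}) < δ := by
  have h : ∀ n : ℕ, Sep μ (fun y => {k | b + 1 / ((n : ℝ) + 1) < e y k})
      (fun y => {k | e y k < b + 1 / ((n : ℝ) + 1) / 2}) univ univ := by
    intro n
    have : (0 : ℝ) < 1 / ((n : ℝ) + 1) := by positivity
    exact sep_univ μ e he hF (by linarith)
  choose 𝒞 hc _ h using h
  refine ⟨⋃ n, 𝒞 n, countable_iUnion hc, fun y δ hδ => ?_⟩
  obtain ⟨N, hN⟩ := upper_approx μ (e y) (he y) b (show 0 < δ / 2 by positivity)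
  obtain ⟨C, hC, h1, h2⟩ := h N y (mem_univ _) (δ / 2) (by positivity)
  rw [univ_inter] at h1 h2
  refine ⟨C, mem_iUnion.2 ⟨N, hC⟩, ?_, ?_⟩
  · have : μ.real ({k | b < e y k} \ C) ≤
        μ.real ({k | b < e y k} \ {k | b + 1 / ((N : ℝ) + 1) < e y k}) +
          μ.real ({k | b + 1 / ((N : ℝ) + 1) < e y k} \ C) := by
      refine real_le_add ?_
      intro z hz
      simp only [Set.mem_sdiff, mem_union] at hz ⊢
      tauto
    linarith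
  · have : μ.real (C \ {k | b < e y k}) ≤
        μ.real ({k | e y k < b + 1 / ((N : ℝ) + 1) / 2} ∩ C) := by
      refine measureReal_mono ?_
      intro z hz
      refine ⟨?_, hz.1⟩
      have h3 : ¬ b < e y z := hz.2
      have h4 : (0 : ℝ) < 1 / ((N : ℝ) + 1) := by positivity
      show e y z < _
      linarith
    linarith

theorem approx_lower (e : X → K → ℝ) (he : ∀ x, Continuous (e x))
    (hF : ∀ k, Frag (fun x => e x k)) (a : ℝ) :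
    ∃ 𝒞 : Set (Set K), 𝒞.Countable ∧ ∀ y, ∀ δ > 0, ∃ C ∈ 𝒞,
      μ.real ({k | e y k < a} \ C) < δ ∧ μ.real (C \ {k | e y k < a}) < δ := by
  have := approx_upper μ (fun x k => - e x k) (fun x => (he x).neg) (fun k => (hF k).neg) (-a)
  simpa only [neg_lt_neg_iff] using this

theorem exists_cover {A L : X → Set K}
    (hA : ∃ 𝒞 : Set (Set K), 𝒞.Countable ∧ ∀ y, ∀ δ > 0, ∃ C ∈ 𝒞,
      μ.real (A y \ C) < δ ∧ μ.real (C \ A y) < δ)
    (hL : ∃ 𝒞 : Set (Set K), 𝒞.Countable ∧ ∀ y, ∀ δ > 0, ∃ C ∈ 𝒞,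
      μ.real (L y \ C) < δ ∧ μ.real (C \ L y) < δ) :
    ∃ 𝒬 : Set (Set X), 𝒬.Countable ∧ ∀ p, ∀ r > 0, ∃ P ∈ 𝒬, p ∈ P ∧ P ⊆ Nb μ A L p r := by
  obtain ⟨𝒞, hc, hA⟩ := hA
  obtain ⟨𝒟, hd, hL⟩ := hL
  obtain ⟨bs, hbs⟩ := exists_nat_basis X
  let P : ℕ → ℕ → Set K → Set K → Set X := fun n m C D =>
    {q | q ∈ bs n ∧ μ.real (A q \ C) < 1 / ((m : ℝ) + 1) ∧ μ.real (C \ A q) < 1 / ((m : ℝ) + 1) ∧
      μ.real (L q \ D) < 1 / ((m : ℝ) + 1) ∧ μ.real (D \ L q) < 1 / ((m : ℝ) + 1)}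
  refine ⟨⋃ n, ⋃ m, image2 (P n m) 𝒞 𝒟,
    countable_iUnion fun n => countable_iUnion fun m => hc.image2 hd _, fun p r hr => ?_⟩
  obtain ⟨n, hn1, hn2⟩ := hbs p r hr
  obtain ⟨m, hm⟩ := exists_nat_one_div_lt (show 0 < r / 2 by positivity)
  obtain ⟨C, hC, c1, c2⟩ := hA p (1 / ((m : ℝ) + 1)) (by positivity)
  obtain ⟨D, hD, d1, d2⟩ := hL p (1 / ((m : ℝ) + 1)) (by positivity)
  refine ⟨P n m C D, mem_iUnion.2 ⟨n, mem_iUnion.2 ⟨m, mem_image2_of_mem hC hD⟩⟩,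
    ⟨hn1, c1, c2, d1, d2⟩, ?_⟩
  rintro q ⟨q0, q1, q2, q3, q4⟩
  have tri : ∀ S T U : Set K, μ.real (S \ U) ≤ μ.real (S \ T) + μ.real (T \ U) := by
    intro S T U
    refine real_le_add ?_
    intro z hz
    simp only [Set.mem_sdiff, mem_union] at hz ⊢
    tauto
  refine ⟨hn2 q0, ?_, ?_, ?_⟩
  · linarith [tri (A q) C (A p)]
  · linarith [tri (A p) C (A q)]
  · linarith [tri (L p) D (L q)]

variable [μ.Regular]

theorem Big.exists_countable {A L : X → Set K} (hA : ∀ p, IsOpen (A p)) (hL : ∀ p, IsOpen (L p))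
    {ε : ℝ} {S : Set X} (h : Big μ A L ε S) : ∃ T, T ⊆ S ∧ T.Countable ∧ Big μ A L ε T := by
  have h1 : ∀ n : ℕ, ∃ T, T ⊆ S ∧ T.Countable ∧
      ∃ p ∈ T, ε - 1 / ((n : ℝ) + 1) < μ.real (A p ∩ ⋃ q ∈ T, L q) := by
    intro n
    have hn : (0 : ℝ) < 1 / ((n : ℝ) + 1) := by positivity
    obtain ⟨p, hp, hlt⟩ := h (ε - 1 / ((n : ℝ) + 1)) (by linarith)
    by_cases hneg : ε - 1 / ((n : ℝ) + 1) < 0
    · exact ⟨{p}, by simpa using hp, countable_singleton _, p, rfl,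
        hneg.trans_le measureReal_nonneg⟩
    push Not at hneg
    have ho : IsOpen (A p ∩ ⋃ q ∈ S, L q) := (hA p).inter (isOpen_biUnion fun q _ => hL q)
    have hlt' : ENNReal.ofReal (ε - 1 / ((n : ℝ) + 1)) < μ (A p ∩ ⋃ q ∈ S, L q) :=
      (ENNReal.ofReal_lt_iff_lt_toReal hneg (measure_ne_top _ _)).2 hlt
    obtain ⟨C, hC1, hC2, hC3⟩ := ho.exists_lt_isCompact hlt'
    obtain ⟨T, hT1, hT2, hT3⟩ := hC2.elim_finite_subcover_image (fun q _ => hL q)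
      (hC1.trans inter_subset_right)
    refine ⟨insert p T, insert_subset hp hT1, (hT2.insert p).countable, p, mem_insert _ _, ?_⟩
    refine ((ENNReal.ofReal_lt_iff_lt_toReal hneg (measure_ne_top _ _)).1 hC3).trans_le ?_
    refine measureReal_mono (subset_inter (hC1.trans inter_subset_left) (hT3.trans ?_))
    exact biUnion_subset_biUnion_left (subset_insert _ _)
  choose T hT1 hT2 hT3 using h1
  refine ⟨⋃ n, T n, iUnion_subset hT1, countable_iUnion hT2, fun r hr => ?_⟩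
  obtain ⟨n, hn⟩ := exists_nat_one_div_lt (show 0 < ε - r by linarith)
  obtain ⟨p, hp, hlt⟩ := hT3 n
  refine ⟨p, mem_iUnion.2 ⟨n, hp⟩, lt_of_lt_of_le (lt_trans (by linarith) hlt) ?_⟩
  refine measureReal_mono (inter_subset_inter_right _ ?_)
  exact biUnion_subset_biUnion_left (subset_iUnion T n)

theorem exists_small_cover (e : X → K → ℝ) (he : ∀ x, Continuous (e x))
    (hF : ∀ k, Frag (fun x => e x k)) {a b : ℝ} (hab : a < b) {ε : ℝ} (hε : 0 < ε) :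
    ∃ 𝒮 : Set (Set X), 𝒮.Countable ∧
      (∀ S ∈ 𝒮, ¬ Big μ (fun y => {k | b < e y k}) (fun y => {k | e y k < a}) ε S) ∧
      ∀ x, ∃ S ∈ 𝒮, x ∈ S := by
  set A : X → Set K := fun y => {k | b < e y k} with hAdef
  set L : X → Set K := fun y => {k | e y k < a} with hLdef
  have hA : ∀ y, IsOpen (A y) := fun y => isOpen_lt continuous_const (he y)
  have hL : ∀ y, IsOpen (L y) := fun y => isOpen_lt (he y) continuous_const
  let J : Set X → Prop := fun P => ∃ 𝒮 : Set (Set X), 𝒮.Countable ∧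
      (∀ S ∈ 𝒮, ¬ Big μ A L ε S) ∧ ∀ x ∈ P, ∃ S ∈ 𝒮, x ∈ S
  obtain ⟨𝒬, hP, hcov⟩ := exists_cover μ (A := A) (L := L) (approx_upper μ e he hF b)
    (approx_lower μ e he hF a)
  have hJ : ∃ 𝒮 : Set (Set X), 𝒮.Countable ∧ (∀ S ∈ 𝒮, ¬ Big μ A L ε S) ∧
      ∀ P ∈ 𝒬, J P → ∀ x ∈ P, ∃ S ∈ 𝒮, x ∈ S := by
    have h1 : ∀ P, ∃ 𝒮 : Set (Set X), 𝒮.Countable ∧ (∀ S ∈ 𝒮, ¬ Big μ A L ε S) ∧
        (J P → ∀ x ∈ P, ∃ S ∈ 𝒮, x ∈ S) := by
      intro P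
      by_cases h : J P
      · obtain ⟨𝒮, h1, h2, h3⟩ := h
        exact ⟨𝒮, h1, h2, fun _ => h3⟩
      · exact ⟨∅, countable_empty, by simp, fun h' => (h h').elim⟩
    choose 𝒮 h1 h2 h3 using h1
    refine ⟨⋃ P ∈ 𝒬, 𝒮 P, hP.biUnion fun P _ => h1 P, ?_, ?_⟩
    · intro S hS
      obtain ⟨P, -, hS⟩ := mem_iUnion₂.1 hS
      exact h2 P S hS
    · intro P hP hJ x hx
      obtain ⟨S, hS, hxS⟩ := h3 P hJ x hx
      exact ⟨S, mem_iUnion₂.2 ⟨P, hP, hS⟩, hxS⟩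
  obtain ⟨𝒮, hS1, hS2, hS3⟩ := hJ
  refine ⟨𝒮, hS1, hS2, ?_⟩
  by_contra hcon
  push Not at hcon
  let Γ : Set X := {x | ∀ S ∈ 𝒮, x ∉ S}
  have hbig : ∀ P ∈ 𝒬, (P ∩ Γ).Nonempty → Big μ A L ε (P ∩ Γ) := by
    intro P hP ⟨x, hxP, hxΓ⟩
    by_contra hnb
    have : J P := by
      refine ⟨insert (P ∩ Γ) 𝒮, hS1.insert _, ?_, ?_⟩
      · rintro S (rfl | hS)
        · exact hnb
        · exact hS2 S hS
      · intro y hy
        by_cases hyΓ : y ∈ Γ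
        · exact ⟨_, mem_insert _ _, hy, hyΓ⟩
        · simp only [Γ, mem_ofPred_eq] at hyΓ
          push Not at hyΓ
          obtain ⟨S, hS, hyS⟩ := hyΓ
          exact ⟨S, mem_insert_of_mem _ hS, hyS⟩
    obtain ⟨S, hS, hxS⟩ := hS3 P hP this x hxP
    exact hxΓ S hS hxS
  have hT : ∀ P, ∃ T, T ⊆ P ∩ Γ ∧ T.Countable ∧
      (P ∈ 𝒬 → (P ∩ Γ).Nonempty → Big μ A L ε T) := by
    intro P
    by_cases h : P ∈ 𝒬 ∧ (P ∩ Γ).Nonempty
    · obtain ⟨T, h1, h2, h3⟩ := (hbig P h.1 h.2).exists_countable μ hA hL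
      exact ⟨T, h1, h2, fun _ _ => h3⟩
    · exact ⟨∅, empty_subset _, countable_empty, fun h1 h2 => (h ⟨h1, h2⟩).elim⟩
  choose T hT1 hT2 hT3 using hT
  refine no_good (μ := μ) e he hF hab hε (⋃ P ∈ 𝒬, T P) ⟨hP.biUnion fun P _ => hT2 P, ?_, ?_⟩
  · obtain ⟨x, hx⟩ := hcon
    obtain ⟨P, hP, hxP, -⟩ := hcov x 1 one_pos
    obtain ⟨p, hp, -⟩ := hT3 P hP ⟨x, hxP, hx⟩ 0 hε
    exact ⟨p, mem_iUnion₂.2 ⟨P, hP, hp⟩⟩
  · intro p hp r hr
    obtain ⟨P0, -, hp0⟩ := mem_iUnion₂.1 hp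
    have hpΓ : p ∈ Γ := (hT1 P0 hp0).2
    obtain ⟨P, hP, hpP, hsub⟩ := hcov p r hr
    refine (hT3 P hP ⟨p, hpP, hpΓ⟩).mono ?_
    intro q hq
    exact ⟨mem_iUnion₂.2 ⟨P, hP, hq⟩, hsub (hT1 P hq).1⟩

theorem inner_upper (e : X → K → ℝ) (he : ∀ x, Continuous (e x))
    (hF : ∀ k, Frag (fun x => e x k)) :
    ∃ 𝓕 : Set (Set K), 𝓕.Countable ∧ (∀ F ∈ 𝓕, IsClosed F) ∧ ∀ x c, ∀ δ > 0, ∃ F ∈ 𝓕,
      F ⊆ {k | c < e x k} ∧ μ.real ({k | c < e x k} \ F) < δ := by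
  have h1 : ∀ (a b : ℚ) (n : ℕ), ∃ 𝒮 : Set (Set X), 𝒮.Countable ∧ ((a : ℝ) < b →
      (∀ S ∈ 𝒮, ¬ Big μ (fun y => {k | (b : ℝ) < e y k}) (fun y => {k | e y k < (a : ℝ)})
        (1 / ((n : ℝ) + 1)) S) ∧ ∀ x, ∃ S ∈ 𝒮, x ∈ S) := by
    intro a b n
    by_cases hab : (a : ℝ) < b
    · obtain ⟨𝒮, h1, h2, h3⟩ := exists_small_cover μ e he hF hab
        (show (0 : ℝ) < 1 / ((n : ℝ) + 1) by positivity)
      exact ⟨𝒮, h1, fun _ => ⟨h2, h3⟩⟩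
    · exact ⟨∅, countable_empty, fun h => (hab h).elim⟩
  choose 𝒮 hc h using h1
  refine ⟨⋃ a : ℚ, ⋃ b : ℚ, ⋃ n, (fun S => (⋃ q ∈ S, {k | e q k < (a : ℝ)})ᶜ) '' 𝒮 a b n,
    countable_iUnion fun a => countable_iUnion fun b => countable_iUnion fun n =>
      (hc a b n).image _, ?_, ?_⟩
  · intro F hF
    simp only [mem_iUnion] at hF
    obtain ⟨a, b, n, S, -, rfl⟩ := hF
    exact (isOpen_biUnion fun q _ => isOpen_lt (he q) continuous_const).isClosed_compl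
  · intro x c δ hδ
    obtain ⟨N, hN⟩ := upper_approx μ (e x) (he x) c (show 0 < δ / 2 by positivity)
    have hNpos : (0 : ℝ) < 1 / ((N : ℝ) + 1) := by positivity
    obtain ⟨b, hb1, hb2⟩ := exists_rat_btwn (show c < c + 1 / ((N : ℝ) + 1) by linarith)
    obtain ⟨a, ha1, ha2⟩ := exists_rat_btwn hb1
    obtain ⟨n, hn⟩ := exists_nat_one_div_lt (show 0 < δ / 2 by positivity)
    obtain ⟨h2, h3⟩ := h a b n ha2
    obtain ⟨S, hS, hxS⟩ := h3 x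
    have h4 := h2 S hS
    simp only [Big] at h4
    push Not at h4
    obtain ⟨r, hr, h4⟩ := h4
    refine ⟨(⋃ q ∈ S, {k | e q k < (a : ℝ)})ᶜ, ?_, ?_, ?_⟩
    · simp only [mem_iUnion]
      exact ⟨a, b, n, S, hS, rfl⟩
    · intro k hk
      have : ¬ e x k < a := fun hlt => hk (mem_iUnion₂.2 ⟨x, hxS, hlt⟩)
      show c < e x k
      linarith
    · have h5 := h4 x hxS
      have h6 : μ.real ({k | c < e x k} \ (⋃ q ∈ S, {k | e q k < (a : ℝ)})ᶜ) ≤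
          μ.real ({k | c < e x k} \ {k | c + 1 / ((N : ℝ) + 1) < e x k}) +
          μ.real ({k | (b : ℝ) < e x k} ∩ ⋃ q ∈ S, {k | e q k < (a : ℝ)}) := by
        refine real_le_add ?_
        intro z hz
        by_cases hz2 : c + 1 / ((N : ℝ) + 1) < e x z
        · right
          exact ⟨lt_trans hb2 hz2, not_not.1 hz.2⟩
        · left
          exact ⟨hz.1, hz2⟩
      linarith

theorem inner_lower (e : X → K → ℝ) (he : ∀ x, Continuous (e x))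
    (hF : ∀ k, Frag (fun x => e x k)) :
    ∃ 𝓕 : Set (Set K), 𝓕.Countable ∧ (∀ F ∈ 𝓕, IsClosed F) ∧ ∀ x c, ∀ δ > 0, ∃ F ∈ 𝓕,
      F ⊆ {k | e x k < c} ∧ μ.real ({k | e x k < c} \ F) < δ := by
  obtain ⟨𝓕, h1, h2, h3⟩ :=
    inner_upper μ (fun x k => - e x k) (fun x => (he x).neg) (fun k => (hF k).neg)
  refine ⟨𝓕, h1, h2, fun x c δ hδ => ?_⟩
  simpa only [neg_lt_neg_iff] using h3 x (-c) δ hδ

end Kernel

end Pool.Agent.Lib.MP_b8145f_gt
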