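import Pool.Agent.Lib.MP_b8145f_gt.Basic

set_option autoImplicit false

open Set Filter Topology MeasureTheory

namespace Pool.Agent.Lib.MP_b8145f_gt

section Sep

variable {X Ω : Type*} [MeasurableSpace Ω] (μ : Measure Ω) [IsFiniteMeasure μ]

/-- Countably many measurable sets approximately separate `A y` from `L y` on `B`, for `y ∈ W`. -/
def Sep (A L : X → Set Ω) (W : Set X) (B : Set Ω) : Prop :=
  ∃ 𝒞 : Set (Set Ω), 𝒞.Countable ∧ (∀ C ∈ 𝒞, MeasurableSet C) ∧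
    ∀ y ∈ W, ∀ δ > 0, ∃ C ∈ 𝒞, μ.real ((B ∩ A y) \ C) < δ ∧ μ.real (B ∩ L y ∩ C) < δ

variable {μ}

theorem real_le_add {S T U : Set Ω} (h : S ⊆ T ∪ U) : μ.real S ≤ μ.real T + μ.real U :=
  (measureReal_mono h).trans (measureReal_union_le _ _)

theorem real_le_add3 {S T U V : Set Ω} (h : S ⊆ T ∪ U ∪ V) :
    μ.real S ≤ μ.real T + μ.real U + μ.real V :=
  (real_le_add h).trans (by linarith [measureReal_union_le (μ := μ) T U])

theorem Sep.swap {A L : X → Set Ω} {W : Set X} {B : Set Ω} (h : Sep μ A L W B) :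
    Sep μ L A W B := by
  obtain ⟨𝒞, hc, hm, h⟩ := h
  refine ⟨compl '' 𝒞, hc.image _, ?_, ?_⟩
  · rintro _ ⟨C, hC, rfl⟩
    exact (hm C hC).compl
  · intro y hy δ hδ
    obtain ⟨C, hC, h1, h2⟩ := h y hy δ hδ
    refine ⟨Cᶜ, mem_image_of_mem _ hC, ?_, ?_⟩
    · rwa [Set.sdiff_compl]
    · rwa [← Set.sdiff_eq]

theorem sep_empty (A L : X → Set Ω) (W : Set X) : Sep μ A L W ∅ := by
  refine ⟨{∅}, countable_singleton _, by simp, ?_⟩
  intro y _ δ hδ
  exact ⟨∅, rfl, by simpa using hδ, by simpa using hδ⟩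

theorem Sep.union {A L : X → Set Ω} {W : Set X} {B1 B2 : Set Ω} (hm1 : MeasurableSet B1)
    (h1 : Sep μ A L W B1) (h2 : Sep μ A L W B2) : Sep μ A L W (B1 ∪ B2) := by
  obtain ⟨𝒞1, hc1, hm1', h1⟩ := h1
  obtain ⟨𝒞2, hc2, hm2', h2⟩ := h2
  refine ⟨image2 (fun C1 C2 => (C1 ∩ B1) ∪ (C2 \ B1)) 𝒞1 𝒞2, hc1.image2 hc2 _, ?_, ?_⟩
  · rintro _ ⟨C1, hC1, C2, hC2, rfl⟩
    exact ((hm1' C1 hC1).inter hm1).union ((hm2' C2 hC2).diff hm1)
  · intro y hy δ hδ
    obtain ⟨C1, hC1, a1, b1⟩ := h1 y hy (δ / 2) (by positivity)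
    obtain ⟨C2, hC2, a2, b2⟩ := h2 y hy (δ / 2) (by positivity)
    refine ⟨_, mem_image2_of_mem hC1 hC2, ?_, ?_⟩
    · have : μ.real (((B1 ∪ B2) ∩ A y) \ ((C1 ∩ B1) ∪ (C2 \ B1))) ≤
          μ.real ((B1 ∩ A y) \ C1) + μ.real ((B2 ∩ A y) \ C2) := by
        refine real_le_add ?_
        intro z hz
        simp only [Set.mem_sdiff, mem_inter_iff, mem_union] at hz ⊢
        tauto
      linarith
    · have : μ.real ((B1 ∪ B2) ∩ L y ∩ ((C1 ∩ B1) ∪ (C2 \ B1))) ≤
          μ.real (B1 ∩ L y ∩ C1) + μ.real (B2 ∩ L y ∩ C2) := by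
        refine real_le_add ?_
        intro z hz
        simp only [Set.mem_sdiff, mem_inter_iff, mem_union] at hz ⊢
        tauto
      linarith

theorem Sep.mono_left {A L : X → Set Ω} {W W' : Set X} {B : Set Ω} (hW : W' ⊆ W)
    (h : Sep μ A L W B) : Sep μ A L W' B := by
  obtain ⟨𝒞, hc, hm, h⟩ := h
  exact ⟨𝒞, hc, hm, fun y hy => h y (hW hy)⟩

theorem sep_of_local {ι : Type*} [Countable ι] {A L : X → Set Ω} (Wi : ι → Set X)
    (Bi : ι → Set Ω) (h : ∀ i, Sep μ A L (Wi i) (Bi i)) (hm : ∀ i, MeasurableSet (Bi i))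
    {W : Set X} {B : Set Ω}
    (hloc : ∀ y ∈ W, ∀ δ > 0, ∃ i, y ∈ Wi i ∧ μ.real ((B ∩ A y) \ Bi i) < δ) :
    Sep μ A L W B := by
  choose 𝒞 hc hm' h using h
  refine ⟨⋃ i, (fun C => C ∩ Bi i) '' 𝒞 i, countable_iUnion fun i => (hc i).image _, ?_, ?_⟩
  · intro C hC
    obtain ⟨i, C', hC', rfl⟩ := mem_iUnion.1 hC
    exact (hm' i C' hC').inter (hm i)
  · intro y hy δ hδ
    obtain ⟨i, hyi, h0⟩ := hloc y hy (δ / 2) (by positivity)
    obtain ⟨C, hC, h1, h2⟩ := h i y hyi (δ / 2) (by positivity)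
    refine ⟨C ∩ Bi i, mem_iUnion.2 ⟨i, mem_image_of_mem _ hC⟩, ?_, ?_⟩
    · have : μ.real ((B ∩ A y) \ (C ∩ Bi i)) ≤
          μ.real ((B ∩ A y) \ Bi i) + μ.real ((Bi i ∩ A y) \ C) := by
        refine real_le_add ?_
        intro z hz
        simp only [Set.mem_sdiff, mem_inter_iff, mem_union] at hz ⊢
        tauto
      linarith
    · have : μ.real (B ∩ L y ∩ (C ∩ Bi i)) ≤ μ.real (Bi i ∩ L y ∩ C) := by
        refine measureReal_mono ?_
        intro z hz
        simp only [mem_inter_iff] at hz ⊢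
        tauto
      linarith

theorem exists_accumulate_lt (B : ℕ → Set Ω) (hm : ∀ n, MeasurableSet (B n)) {T : Set Ω}
    (hT : μ (T \ ⋃ n, B n) = 0) {δ : ℝ} (hδ : 0 < δ) :
    ∃ N, μ.real (T \ accumulate B N) < δ := by
  have h1 := tendsto_measure_iUnion_accumulate (μ := μ) (f := B)
  have h2 : Tendsto (fun i => μ.real (accumulate B i)) atTop (𝓝 (μ.real (⋃ i, B i))) :=
    (ENNReal.tendsto_toReal (measure_ne_top _ _)).comp h1
  have h3 := h2.eventually (lt_mem_nhds (show μ.real (⋃ i, B i) - δ < μ.real (⋃ i, B i) by linarith))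
  obtain ⟨N, hN⟩ := h3.exists
  refine ⟨N, ?_⟩
  have hma : MeasurableSet (accumulate B N) := by
    rw [accumulate_def]
    exact MeasurableSet.biUnion (to_countable _) fun i _ => hm i
  have h4 : μ.real ((⋃ i, B i) \ accumulate B N) = μ.real (⋃ i, B i) - μ.real (accumulate B N) :=
    measureReal_sdiff (accumulate_subset_iUnion N) hma
  have h5 : μ.real (T \ accumulate B N) ≤
      μ.real (T \ ⋃ n, B n) + μ.real ((⋃ i, B i) \ accumulate B N) := by
    refine real_le_add ?_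
    intro z hz
    simp only [Set.mem_sdiff, mem_union] at hz ⊢
    tauto
  have h6 : μ.real (T \ ⋃ n, B n) = 0 := by simp [Measure.real, hT]
  linarith

theorem sep_biUnion_finset {ι : Type*} {A L : X → Set Ω} {W : Set X} (B : ι → Set Ω)
    (F : Finset ι) (hm : ∀ i ∈ F, MeasurableSet (B i)) (h : ∀ i ∈ F, Sep μ A L W (B i)) :
    Sep μ A L W (⋃ i ∈ F, B i) := by
  classical
  induction F using Finset.induction_on with
  | empty => simpa using sep_empty A L W
  | insert a s _ ih =>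
    rw [Finset.set_biUnion_insert]
    exact Sep.union (hm a (Finset.mem_insert_self _ _)) (h a (Finset.mem_insert_self _ _))
      (ih (fun i hi => hm i (Finset.mem_insert_of_mem hi))
        (fun i hi => h i (Finset.mem_insert_of_mem hi)))

omit [MeasurableSpace Ω] in
theorem accumulate_eq_finset (B : ℕ → Set Ω) (N : ℕ) :
    accumulate B N = ⋃ i ∈ Finset.range (N + 1), B i := by
  ext z
  simp [mem_accumulate]

theorem exists_max_sep (A L : X → Set Ω) (W : Set X) :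
    ∃ M : Set Ω, MeasurableSet M ∧ Sep μ A L W M ∧
      ∀ B, MeasurableSet B → Sep μ A L W B → μ (B \ M) = 0 := by
  let R : Set ℝ := {t | ∃ B, MeasurableSet B ∧ Sep μ A L W B ∧ μ.real B = t}
  have hRne : R.Nonempty := ⟨_, ∅, MeasurableSet.empty, sep_empty A L W, rfl⟩
  have hRb : BddAbove R := by
    refine ⟨μ.real univ, ?_⟩
    rintro _ ⟨B, -, -, rfl⟩
    exact measureReal_mono (subset_univ _)
  have hex : ∀ n : ℕ, ∃ B, MeasurableSet B ∧ Sep μ A L W B ∧
      sSup R - 1 / ((n : ℝ) + 1) < μ.real B := by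
    intro n
    have : sSup R - 1 / ((n : ℝ) + 1) < sSup R := by
      have : (0 : ℝ) < 1 / ((n : ℝ) + 1) := by positivity
      linarith
    obtain ⟨t, ⟨B, h1, h2, rfl⟩, h3⟩ := exists_lt_of_lt_csSup hRne this
    exact ⟨B, h1, h2, h3⟩
  choose B hBm hBs hBl using hex
  have hMm : MeasurableSet (⋃ n, B n) := MeasurableSet.iUnion hBm
  have hMs : Sep μ A L W (⋃ n, B n) := by
    refine sep_of_local (fun _ : ℕ => W) (fun N => ⋃ i ∈ Finset.range (N + 1), B i)
      (fun N => sep_biUnion_finset B _ (fun i _ => hBm i) (fun i _ => hBs i))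
      (fun N => Finset.measurableSet_biUnion _ (fun i _ => hBm i)) ?_
    intro y hy δ hδ
    obtain ⟨N, hN⟩ := exists_accumulate_lt (μ := μ) B hBm (T := (⋃ n, B n) ∩ A y)
      (by rw [sdiff_eq_empty.2 inter_subset_left]; simp) hδ
    exact ⟨N, hy, by rwa [accumulate_eq_finset] at hN⟩
  refine ⟨⋃ n, B n, hMm, hMs, ?_⟩
  intro C hCm hCs
  have h1 : μ.real ((⋃ n, B n) ∪ C) ≤ sSup R :=
    le_csSup hRb ⟨_, hMm.union hCm, hMs.union hMm hCs, rfl⟩
  have h2 : sSup R ≤ μ.real (⋃ n, B n) := by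
    refine le_of_forall_pos_lt_add fun η hη => ?_
    obtain ⟨n, hn⟩ := exists_nat_one_div_lt hη
    have := hBl n
    have h3 : μ.real (B n) ≤ μ.real (⋃ n, B n) := measureReal_mono (subset_iUnion B n)
    linarith
  have h3 : μ.real ((⋃ n, B n) ∪ C) = μ.real (⋃ n, B n) + μ.real (C \ ⋃ n, B n) := by
    rw [← measureReal_union disjoint_sdiff_right (hCm.diff hMm), union_sdiff_self]
  have h4 : μ.real (C \ ⋃ n, B n) = 0 :=
    le_antisymm (by linarith) measureReal_nonneg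
  exact (measureReal_eq_zero_iff (measure_ne_top _ _)).1 h4

/-- The extension lemma. -/
theorem sep_extension {A L : X → Set Ω} (b : ℕ → Set X) (M : ℕ → Set Ω)
    (hMm : ∀ n, MeasurableSet (M n)) (hMs : ∀ n, Sep μ A L (b n) (M n))
    {W : Set X} {B : Set Ω} (h : ¬ Sep μ A L W B) :
    ∃ y ∈ W, μ ((B ∩ A y) \ ⋃ n, ⋃ (_ : y ∈ b n), M n) ≠ 0 := by
  classical
  by_contra hcon
  push Not at hcon
  apply h
  refine sep_of_local (fun F : Finset ℕ => ⋂ n ∈ F, b n) (fun F => ⋃ n ∈ F, M n) ?_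
    (fun F => Finset.measurableSet_biUnion _ (fun i _ => hMm i)) ?_
  · intro F
    refine sep_biUnion_finset M F (fun i _ => hMm i) (fun i hi => (hMs i).mono_left ?_)
    exact biInter_subset_of_mem (s := (F : Set ℕ)) hi
  · intro y hy δ hδ
    obtain ⟨N, hN⟩ := exists_accumulate_lt (μ := μ) (fun n => ⋃ (_ : y ∈ b n), M n)
      (fun n => MeasurableSet.iUnion fun _ => hMm n) (hcon y hy) hδ
    refine ⟨(Finset.range (N + 1)).filter (fun n => y ∈ b n), ?_, ?_⟩
    · simp only [mem_iInter]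
      intro n hn
      exact (Finset.mem_filter.1 hn).2
    · refine lt_of_le_of_lt (measureReal_mono ?_) hN
      refine sdiff_subset_sdiff_right ?_
      intro z hz
      rw [mem_accumulate] at hz
      obtain ⟨n, hn, hz⟩ := hz
      simp only [mem_iUnion] at hz ⊢
      obtain ⟨hyn, hz⟩ := hz
      exact ⟨n, Finset.mem_filter.2 ⟨Finset.mem_range.2 (Nat.lt_succ_of_le hn), hyn⟩, hz⟩

end Sep

end Pool.Agent.Lib.MP_b8145f_gt
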