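import Pool.Agent.Lib.MP_b8145f_gt.Ctype

set_option autoImplicit false
set_option linter.unusedSectionVars false

open Set Filter Topology MeasureTheory

namespace Pool.Agent.Lib.MP_b8145f_gt

section Split

variable {X Ω : Type*} [MetricSpace X] [MeasurableSpace Ω] (μ : Measure Ω)
  [IsProbabilityMeasure μ] (A L : X → Set Ω)

/-- Points close to `p` both in `X` and in the measure algebra. -/
def Nb (p : X) (r : ℝ) : Set X :=
  {q | dist q p < r ∧ μ.real (A q \ A p) < r ∧ μ.real (A p \ A q) < r ∧ μ.real (L p \ L q) < r}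

/-- The set `S` is not small. -/
def Big (ε : ℝ) (S : Set X) : Prop :=
  ∀ r < ε, ∃ p ∈ S, r < μ.real (A p ∩ ⋃ q ∈ S, L q)

/-- Countable nonempty sets all of whose portions are big. -/
def Good (ε : ℝ) (Z : Set X) : Prop :=
  Z.Countable ∧ Z.Nonempty ∧ ∀ p ∈ Z, ∀ r > 0, Big μ A L ε (Z ∩ Nb μ A L p r)

variable {μ A L}

theorem Nb_mono {p : X} {r r' : ℝ} (h : r ≤ r') : Nb μ A L p r ⊆ Nb μ A L p r' :=
  fun _ hq => ⟨hq.1.trans_le h, hq.2.1.trans_le h, hq.2.2.1.trans_le h, hq.2.2.2.trans_le h⟩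

theorem Big.mono {ε : ℝ} {S T : Set X} (h : Big μ A L ε S) (hST : S ⊆ T) : Big μ A L ε T := by
  intro r hr
  obtain ⟨p, hp, h⟩ := h r hr
  refine ⟨p, hST hp, h.trans_le (measureReal_mono ?_)⟩
  exact inter_subset_inter_right _ (biUnion_subset_biUnion_left hST)

theorem Good.big {ε : ℝ} {Z : Set X} (h : Good μ A L ε Z) : Big μ A L ε Z := by
  obtain ⟨p, hp⟩ := h.2.1
  exact (h.2.2 p hp 1 one_pos).mono inter_subset_left

theorem Good.inter_ball {ε : ℝ} {Z : Set X} (h : Good μ A L ε Z) {p : X} (hp : p ∈ Z) {r : ℝ}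
    (hr : 0 < r) : Good μ A L ε (Z ∩ Metric.ball p r) := by
  refine ⟨h.1.mono inter_subset_left, ⟨p, hp, Metric.mem_ball_self hr⟩, ?_⟩
  intro p' hp' r' hr'
  have h1 : dist p' p < r := hp'.2
  refine (h.2.2 p' hp'.1 (min r' (r - dist p' p)) (lt_min hr' (by linarith))).mono ?_
  intro q hq
  refine ⟨⟨hq.1, ?_⟩, Nb_mono (min_le_left _ _) hq.2⟩
  have h2 : dist q p' < r - dist p' p := hq.2.1.trans_le (min_le_right _ _)
  have h3 := dist_triangle q p' p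
  rw [Metric.mem_ball]
  linarith

theorem split_null (hA : ∀ p, MeasurableSet (A p)) (hL : ∀ p, MeasurableSet (L p))
    {ε : ℝ} {Z Y : Set X} (hY : Y.Countable) {p0 : X}
    (hZ : ∀ r' > 0, Big μ A L ε (Z ∩ Nb μ A L p0 r')) {r : ℝ} (hr : 0 < r)
    (hZY : Z ∩ Nb μ A L p0 r ⊆ Y)
    (E : X → Set Ω) (hE : ∀ p, MeasurableSet (E p))
    (hEn : ∀ q r, q ∈ Nb μ A L p0 r → μ.real (E p0 \ E q) < r) {r0 : ℝ} (hr0 : r0 < ε) :
    μ {f | f ∈ E p0 ∧ μ.real (A p0 ∩ ⋃ q ∈ {q | q ∈ Y ∧ f ∈ E q}, L q) ≤ r0} = 0 := by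
  set M : Set (Ω × Ω) := ⋃ q ∈ Y, E q ×ˢ (A p0 ∩ L q) with hM
  have hMm : MeasurableSet M :=
    MeasurableSet.biUnion hY fun q _ => (hE q).prod ((hA p0).inter (hL q))
  have hsec : ∀ f, Prod.mk f ⁻¹' M = A p0 ∩ ⋃ q ∈ {q | q ∈ Y ∧ f ∈ E q}, L q := by
    intro f
    ext z
    simp only [hM, mem_preimage, mem_iUnion, mem_prod, mem_inter_iff, mem_ofPred_eq]
    constructor
    · rintro ⟨q, hq, h1, h2, h3⟩
      exact ⟨h2, q, ⟨hq, h1⟩, h3⟩
    · rintro ⟨h2, q, ⟨hq, h1⟩, h3⟩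
      exact ⟨q, hq, h1, h2, h3⟩
  set I : Set Ω := {f | f ∈ E p0 ∧ μ.real (A p0 ∩ ⋃ q ∈ {q | q ∈ Y ∧ f ∈ E q}, L q) ≤ r0} with hI
  have hIm : MeasurableSet I := by
    have h1 : Measurable fun f => μ.real (Prod.mk f ⁻¹' M) :=
      (measurable_measure_prodMk_left hMm).ennreal_toReal
    have h2 : I = E p0 ∩ {f | μ.real (Prod.mk f ⁻¹' M) ≤ r0} := by
      ext f
      simp only [hI, mem_ofPred_eq, mem_inter_iff, hsec]
    rw [h2]
    exact (hE p0).inter (measurableSet_le h1 measurable_const)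
  by_contra hne
  have hpos : 0 < μ.real I := by
    refine lt_of_le_of_ne measureReal_nonneg fun h => hne ?_
    exact (measureReal_eq_zero_iff (measure_ne_top _ _)).1 h.symm
  set δ : ℝ := (ε - r0) / 4 with hδ
  have hδpos : 0 < δ := by rw [hδ]; linarith
  set r' : ℝ := min r (min δ (δ * μ.real I)) with hr'
  have hr'pos : 0 < r' := lt_min hr (lt_min hδpos (mul_pos hδpos hpos))
  have hr'1 : r' ≤ r := min_le_left _ _
  have hr'2 : r' ≤ δ := (min_le_right _ _).trans (min_le_left _ _)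
  have hr'3 : r' ≤ δ * μ.real I := (min_le_right _ _).trans (min_le_right _ _)
  set Z' : Set X := Z ∩ Nb μ A L p0 r' with hZ'
  have hZ'Y : Z' ⊆ Y := fun q hq => hZY ⟨hq.1, Nb_mono hr'1 hq.2⟩
  obtain ⟨p, hp, hpl⟩ := hZ r' hr'pos (ε - δ) (by linarith)
  set N : Set Ω := A p0 ∩ ⋃ q ∈ Z', L q with hN
  have hNm : MeasurableSet N :=
    (hA p0).inter (MeasurableSet.biUnion (hY.mono hZ'Y) fun q _ => hL q)
  have hNl : ε - 2 * δ < μ.real N := by
    have h1 : μ.real (A p ∩ ⋃ q ∈ Z', L q) ≤ μ.real N + μ.real (A p \ A p0) := by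
      refine real_le_add ?_
      intro z hz
      by_cases h : z ∈ A p0
      · exact Or.inl ⟨h, hz.2⟩
      · exact Or.inr ⟨hz.1, h⟩
    have h2 : μ.real (A p \ A p0) < r' := hp.2.2.1
    linarith
  have key := fubini_bound μ ((I ×ˢ N) \ M) ((hIm.prod hNm).diff hMm) I hIm (2 * δ)
    (δ * μ.real I) (by positivity) (by positivity) ?_ ?_
  · nlinarith
  · intro f hf
    have h1 : μ.real N ≤ μ.real (Prod.mk f ⁻¹' ((I ×ˢ N) \ M)) + μ.real (Prod.mk f ⁻¹' M) := by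
      refine real_le_add ?_
      intro z hz
      by_cases h : (f, z) ∈ M
      · exact Or.inr h
      · exact Or.inl ⟨⟨hf, hz⟩, h⟩
    have h2 : μ.real (Prod.mk f ⁻¹' M) ≤ r0 := by rw [hsec]; exact hf.2
    linarith
  · intro z
    by_cases hz : z ∈ N
    · obtain ⟨q, hq, hzq⟩ := mem_iUnion₂.1 hz.2
      have h1 : μ.real ((fun f => (f, z)) ⁻¹' ((I ×ˢ N) \ M)) ≤ μ.real (E p0 \ E q) := by
        refine measureReal_mono ?_
        intro f hf
        refine ⟨hf.1.1.1, fun hfq => hf.2 ?_⟩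
        exact mem_iUnion₂.2 ⟨q, hZ'Y hq, hfq, hz.1, hzq⟩
      have h2 := hEn q r' hq.2
      linarith
    · have h1 : (fun f => (f, z)) ⁻¹' ((I ×ˢ N) \ M) = ∅ := by
        ext f
        simp only [mem_preimage, mem_empty_iff_false, iff_false]
        exact fun h => hz h.1.2
      rw [h1, measureReal_empty]
      positivity

/-- The splitting lemma. -/
theorem Good.split (hA : ∀ p, MeasurableSet (A p)) (hL : ∀ p, MeasurableSet (L p))
    {ε : ℝ} {Z : Set X} (hZ : Good μ A L ε Z)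
    (E : X → Set Ω) (hE : ∀ p, MeasurableSet (E p))
    (hEn : ∀ p q r, q ∈ Nb μ A L p r → μ.real (E p \ E q) < r) :
    ∀ᵐ f ∂μ, (∃ p ∈ Z, f ∈ E p) → Good μ A L ε {p | p ∈ Z ∧ f ∈ E p} := by
  have h1 : ∀ᵐ f ∂μ, ∀ p0 ∈ Z, ∀ n m : ℕ, ¬ (f ∈ E p0 ∧
      μ.real (A p0 ∩ ⋃ q ∈ {q | q ∈ Z ∩ Nb μ A L p0 (1 / ((n : ℝ) + 1)) ∧ f ∈ E q}, L q) ≤
        ε - 1 / ((m : ℝ) + 1)) := by
    rw [ae_ball_iff hZ.1]
    intro p0 hp0
    rw [ae_all_iff]
    intro n
    rw [ae_all_iff]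
    intro m
    have hm : (0 : ℝ) < 1 / ((m : ℝ) + 1) := by positivity
    have := split_null hA hL (Z := Z) (Y := Z ∩ Nb μ A L p0 (1 / ((n : ℝ) + 1)))
      (hZ.1.mono inter_subset_left) (hZ.2.2 p0 hp0) (r := 1 / ((n : ℝ) + 1)) (by positivity)
      Subset.rfl E hE (hEn p0) (r0 := ε - 1 / ((m : ℝ) + 1)) (by linarith)
    exact measure_eq_zero_iff_ae_notMem.1 this
  filter_upwards [h1] with f hf hex
  refine ⟨hZ.1.mono fun p hp => hp.1, hex, ?_⟩
  intro p0 hp0 r hr r0 hr0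
  obtain ⟨n, hn⟩ := exists_nat_one_div_lt hr
  obtain ⟨m, hm⟩ := exists_nat_one_div_lt (show 0 < ε - r0 by linarith)
  have h2 := hf p0 hp0.1 n m
  push Not at h2
  have h3 := h2 hp0.2
  have hself : p0 ∈ Nb μ A L p0 r := ⟨by simpa using hr, by simpa using hr, by simpa using hr,
    by simpa using hr⟩
  refine ⟨p0, ⟨hp0, hself⟩, ?_⟩
  refine lt_of_lt_of_le (show r0 < _ from lt_trans (by linarith) h3) (measureReal_mono ?_)
  refine inter_subset_inter_right _ (biUnion_subset_biUnion_left ?_)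
  intro q hq
  exact ⟨⟨hq.1.1, hq.2⟩, Nb_mono hn.le hq.1.2⟩

end Split

end Pool.Agent.Lib.MP_b8145f_gt
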