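import Pool.Agent.Lib.MP_b8145f_gt.Final

/-!
Families of open pairs without independent sequences are uniformly approximated by finite
families of closed sets; measures on the corresponding compact spaces are countably determined.
-/

set_option autoImplicit false
set_option linter.unusedSectionVars false

open Set Filter Topology MeasureTheory

namespace Pool.Agent.Lib.MP_b8145f_gt.Tame

theorem exists_max {Ω : Type*} [MeasurableSpace Ω] (μ : Measure Ω) [IsFiniteMeasure μ]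
    (P : Set Ω → Prop) (h0 : P ∅) (hu : ∀ B C, P B → P C → P (B ∪ C))
    (hU : ∀ B : ℕ → Set Ω, (∀ n, MeasurableSet (B n)) → (∀ n, P (B n)) → P (⋃ n, B n)) :
    ∃ M, MeasurableSet M ∧ P M ∧ ∀ B, MeasurableSet B → P B → μ (B \ M) = 0 := by
  let R : Set ℝ := {t | ∃ B, MeasurableSet B ∧ P B ∧ μ.real B = t}
  have hRne : R.Nonempty := ⟨_, ∅, MeasurableSet.empty, h0, rfl⟩
  have hRb : BddAbove R := by
    refine ⟨μ.real univ, ?_⟩
    rintro _ ⟨B, -, -, rfl⟩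
    exact measureReal_mono (subset_univ _)
  have hex : ∀ n : ℕ, ∃ B, MeasurableSet B ∧ P B ∧ sSup R - 1 / ((n : ℝ) + 1) < μ.real B := by
    intro n
    have : sSup R - 1 / ((n : ℝ) + 1) < sSup R := by
      have : (0 : ℝ) < 1 / ((n : ℝ) + 1) := by positivity
      linarith
    obtain ⟨t, ⟨B, h1, h2, rfl⟩, h3⟩ := exists_lt_of_lt_csSup hRne this
    exact ⟨B, h1, h2, h3⟩
  choose B hBm hBs hBl using hex
  have hMm : MeasurableSet (⋃ n, B n) := MeasurableSet.iUnion hBm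
  have hMs := hU B hBm hBs
  refine ⟨⋃ n, B n, hMm, hMs, ?_⟩
  intro C hCm hCs
  have h1 : μ.real ((⋃ n, B n) ∪ C) ≤ sSup R :=
    le_csSup hRb ⟨_, hMm.union hCm, hu _ _ hMs hCs, rfl⟩
  have h2 : sSup R ≤ μ.real (⋃ n, B n) := by
    refine le_of_forall_pos_lt_add fun η hη => ?_
    obtain ⟨n, hn⟩ := exists_nat_one_div_lt hη
    have := hBl n
    have h3 : μ.real (B n) ≤ μ.real (⋃ n, B n) := measureReal_mono (subset_iUnion B n)
    linarith
  have h3 : μ.real ((⋃ n, B n) ∪ C) = μ.real (⋃ n, B n) + μ.real (C \ ⋃ n, B n) := by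
    rw [← measureReal_union disjoint_sdiff_right (hCm.diff hMm), union_sdiff_self]
  have h4 : μ.real (C \ ⋃ n, B n) = 0 := le_antisymm (by linarith) measureReal_nonneg
  exact (measureReal_eq_zero_iff (measure_ne_top _ _)).1 h4

variable {K : Type*} [tK : TopologicalSpace K] [CompactSpace K] [T2Space K] [MeasurableSpace K]
  [OpensMeasurableSpace K] (μ : Measure K) [IsProbabilityMeasure μ] [μ.Regular]

theorem exists_compact_pos {B : Set K} (hB : MeasurableSet B) (h0 : μ B ≠ 0) :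
    ∃ C, C ⊆ B ∧ IsCompact C ∧ μ C ≠ 0 := by
  have hpos : 0 < μ.real B := ENNReal.toReal_pos h0 (measure_ne_top _ _)
  obtain ⟨C, c1, c2, c3⟩ := exists_compact_real μ hB hpos
  refine ⟨C, c1, c2, fun h => ?_⟩
  have h1 : μ.real B ≤ μ.real (B \ C) + μ.real C :=
    real_le_add fun z hz => (em (z ∈ C)).elim Or.inr fun h' => Or.inl ⟨hz, h'⟩
  have h2 : μ.real C = 0 := by simp [Measure.real, h]
  linarith

/-- A set of positive measure contains a self-supporting closed set of positive measure. -/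
theorem exists_selfsupp {B : Set K} (hB : MeasurableSet B) (h0 : μ B ≠ 0) :
    ∃ C, C ⊆ B ∧ IsClosed C ∧ μ C ≠ 0 ∧
      ∀ U, IsOpen U → (C ∩ U).Nonempty → μ (C ∩ U) ≠ 0 := by
  obtain ⟨C, c1, c2, c3⟩ := exists_compact_pos μ hB h0
  let 𝒲 : Set (Set K) := {U | IsOpen U ∧ μ (C ∩ U) = 0}
  have hW : IsOpen (⋃₀ 𝒲) := isOpen_sUnion fun U hU => hU.1
  have hn : μ (C ∩ ⋃₀ 𝒲) = 0 := by
    by_contra h
    obtain ⟨D, d1, d2, d3⟩ :=
      exists_compact_pos μ (c2.isClosed.measurableSet.inter hW.measurableSet) h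
    have d4 : D ⊆ ⋃ U ∈ 𝒲, U := by
      rw [← sUnion_eq_biUnion]
      exact d1.trans inter_subset_right
    obtain ⟨T, t1, t2, t3⟩ := d2.elim_finite_subcover_image (fun U hU => hU.1) d4
    refine d3 (measure_mono_null (t := ⋃ U ∈ T, C ∩ U) (fun z hz => ?_) ?_)
    · obtain ⟨U, hU, hz'⟩ := mem_iUnion₂.1 (t3 hz)
      exact mem_iUnion₂.2 ⟨U, hU, (d1 hz).1, hz'⟩
    · exact (measure_biUnion_null_iff t2.countable).2 fun U hU => (t1 hU).2
  have key : ∀ U, μ ((C \ ⋃₀ 𝒲) ∩ U) = 0 → μ (C ∩ U) = 0 := fun U h =>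
    measure_mono_null (t := (C \ ⋃₀ 𝒲) ∩ U ∪ C ∩ ⋃₀ 𝒲)
      (fun z hz => (em (z ∈ ⋃₀ 𝒲)).elim (fun h' => Or.inr ⟨hz.1, h'⟩)
        fun h' => Or.inl ⟨⟨hz.1, h'⟩, hz.2⟩) (measure_union_null h hn)
  refine ⟨C \ ⋃₀ 𝒲, sdiff_subset.trans c1, c2.isClosed.sdiff hW, fun h => c3 ?_, ?_⟩
  · simpa using key univ (by simpa using h)
  · rintro U hU ⟨z, hz, hzU⟩ h
    exact hz.2 (mem_sUnion_of_mem hzU ⟨hU, key U h⟩)

/-- The points at which every closed member of `G` meets both `A` and `L`. -/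
def Bad (G : Finset (Set K)) (A L : Set K) : Set K :=
  {k | ∀ C ∈ G, IsClosed C → k ∈ C → (C ∩ A).Nonempty ∧ (C ∩ L).Nonempty}

/-- The local form of the uniform approximation. -/
theorem local_small {Γ : Type*} (A L : Γ → Set K) (hA : ∀ x, IsOpen (A x))
    (hL : ∀ x, IsOpen (L x)) (V : ℕ → Set Γ) {ε : ℝ} (hε : 0 < ε)
    (h : ∀ (n : ℕ) (G : Finset (Set K)), ∃ x ∈ V n, ε ≤ μ.real (Bad G (A x) (L x)))
    (hV : Antitone V) :
    ∃ g : ℕ → Γ, (∀ n, g n ∈ V n) ∧ ∀ P M : Finset ℕ, Disjoint P M →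
      ∃ k, (∀ n ∈ P, k ∈ L (g n)) ∧ ∀ n ∈ M, k ∈ A (g n) := by
  classical
  choose x hxV hx using h
  let 𝒰 : Ultrafilter (ℕ × Finset (Set K)) := Ultrafilter.of atTop
  have h𝒰 : (𝒰 : Filter (ℕ × Finset (Set K))) ≤ atTop := Ultrafilter.of_le _
  let D : ℕ × Finset (Set K) → Set K := fun i => Bad i.2 (A (x i.1 i.2)) (L (x i.1 i.2))
  let N : Set K → Prop := fun B => ∀ δ > 0, ∀ᶠ i in (𝒰 : Filter _), μ.real (B ∩ D i) < δ
  have N0 : ∀ B, μ B = 0 → N B := fun B hB δ hδ => Eventually.of_forall fun i => by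
    have : μ (B ∩ D i) = 0 := measure_mono_null inter_subset_left hB
    simpa [Measure.real, this] using hδ
  have Nu : ∀ B C, N B → N C → N (B ∪ C) := fun B C hB hC δ hδ => by
    filter_upwards [hB (δ / 2) (by positivity), hC (δ / 2) (by positivity)] with i h1 h2
    have : μ.real ((B ∪ C) ∩ D i) ≤ μ.real (B ∩ D i) + μ.real (C ∩ D i) :=
      real_le_add (union_inter_distrib_right _ _ _).subset
    linarith
  have NU : ∀ B : ℕ → Set K, (∀ n, MeasurableSet (B n)) → (∀ n, N (B n)) → N (⋃ n, B n) := by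
    intro B hm hB δ hδ
    obtain ⟨m, hm'⟩ := exists_accumulate_lt (μ := μ) B hm (T := ⋃ n, B n) (by simp)
      (show 0 < δ / 2 by positivity)
    have hacc : ∀ m, N (accumulate B m) := by
      intro m
      induction m with
      | zero => simpa using hB 0
      | succ m ih => rw [accumulate_succ]; exact Nu _ _ ih (hB _)
    filter_upwards [hacc m (δ / 2) (by positivity)] with i h1
    have : μ.real ((⋃ n, B n) ∩ D i) ≤
        μ.real (accumulate B m ∩ D i) + μ.real ((⋃ n, B n) \ accumulate B m) :=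
      real_le_add fun z hz => (em (z ∈ accumulate B m)).elim (fun h' => Or.inl ⟨h', hz.2⟩)
        fun h' => Or.inr ⟨hz.1, h'⟩
    linarith
  obtain ⟨M, hMm, hMN, hM⟩ := exists_max μ N (N0 _ measure_empty) Nu NU
  have hM0 : μ Mᶜ ≠ 0 := fun h0 => by
    obtain ⟨i, hi⟩ := (Nu _ _ hMN (N0 _ h0) ε hε).exists
    rw [union_compl_self, univ_inter] at hi
    exact absurd (hx i.1 i.2) (not_le.2 hi)
  let Q : Set K → Prop := fun B => MeasurableSet B ∧ B ⊆ Mᶜ ∧ μ B ≠ 0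
  have one : ∀ B, Q B → ∀ᶠ i in (𝒰 : Filter (ℕ × Finset (Set K))),
      Q (B ∩ A (x i.1 i.2)) ∧ Q (B ∩ L (x i.1 i.2)) := by
    intro B hB
    obtain ⟨C, c1, c2, c3, c4⟩ := exists_selfsupp μ hB.1 hB.2.2
    have hC : ¬ N C := fun hN => c3 (by
      have := hM C c2.measurableSet hN
      rwa [sdiff_eq_left.2 (disjoint_left.2 fun z hz hzM => hB.2.1 (c1 hz) hzM)] at this)
    simp only [N, not_forall] at hC
    obtain ⟨δ, hδ, hC⟩ := hC
    have e1 := Ultrafilter.eventually_not.2 hC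
    have e2 : ∀ᶠ i in (𝒰 : Filter (ℕ × Finset (Set K))), (0, {C}) ≤ i :=
      h𝒰 (eventually_ge_atTop _)
    filter_upwards [e1, e2] with i h1 h2
    have hne : (C ∩ D i).Nonempty := by
      by_contra hne
      rw [not_nonempty_iff_eq_empty.1 hne, measureReal_empty] at h1
      exact h1 hδ
    obtain ⟨z, hzC, hz⟩ := hne
    obtain ⟨a1, a2⟩ := hz C (h2.2 (Finset.mem_singleton_self C)) c2 hzC
    exact ⟨⟨hB.1.inter (hA _).measurableSet, inter_subset_left.trans hB.2.1, fun h0 =>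
        c4 _ (hA _) a1 (measure_mono_null (inter_subset_inter_left _ c1) h0)⟩,
      hB.1.inter (hL _).measurableSet, inter_subset_left.trans hB.2.1, fun h0 =>
        c4 _ (hL _) a2 (measure_mono_null (inter_subset_inter_left _ c1) h0)⟩
  have step : ∀ (T : {T : Set (Set K) // T.Finite ∧ ∀ B ∈ T, Q B}) (n : ℕ),
      ∃ (y : Γ) (T' : {T : Set (Set K) // T.Finite ∧ ∀ B ∈ T, Q B}), y ∈ V n ∧
        ∀ B ∈ T.1, B ∩ A y ∈ T'.1 ∧ B ∩ L y ∈ T'.1 := by
    intro T n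
    have e1 := (eventually_all_finite T.2.1).2 fun B hB => one B (T.2.2 B hB)
    have e2 : ∀ᶠ i in (𝒰 : Filter (ℕ × Finset (Set K))), (n, ∅) ≤ i :=
      h𝒰 (eventually_ge_atTop _)
    obtain ⟨i, h1, h2⟩ := (e1.and e2).exists
    refine ⟨x i.1 i.2, ⟨(· ∩ A (x i.1 i.2)) '' T.1 ∪ (· ∩ L (x i.1 i.2)) '' T.1,
      (T.2.1.image _).union (T.2.1.image _), ?_⟩, hV h2.1 (hxV _ _),
      fun B hB => ⟨Or.inl (mem_image_of_mem _ hB), Or.inr (mem_image_of_mem _ hB)⟩⟩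
    rintro _ (⟨B, hB, rfl⟩ | ⟨B, hB, rfl⟩)
    · exact (h1 B hB).1
    · exact (h1 B hB).2
  choose y F hy hF using step
  let T : ℕ → {T : Set (Set K) // T.Finite ∧ ∀ B ∈ T, Q B} := fun n =>
    Nat.rec ⟨{Mᶜ}, finite_singleton _, fun B hB => by
      rw [mem_singleton_iff.1 hB]; exact ⟨hMm.compl, Subset.rfl, hM0⟩⟩ (fun n t => F t n) n
  refine ⟨fun n => y (T n) n, fun n => hy _ _, fun P M' hPM => ?_⟩
  have key : ∀ n, ∃ B ∈ (T n).1, ∀ i < n,
      (i ∈ P → B ⊆ L (y (T i) i)) ∧ (i ∉ P → B ⊆ A (y (T i) i)) := by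
    intro n
    induction n with
    | zero => exact ⟨Mᶜ, rfl, fun i hi => absurd hi (Nat.not_lt_zero _)⟩
    | succ n ih =>
      obtain ⟨B, hB, hi⟩ := ih
      by_cases hn : n ∈ P
      · refine ⟨B ∩ L (y (T n) n), (hF (T n) n B hB).2, fun i hi' => ?_⟩
        rcases Nat.lt_succ_iff_lt_or_eq.1 hi' with h1 | rfl
        · exact ⟨fun h => inter_subset_left.trans ((hi i h1).1 h),
            fun h => inter_subset_left.trans ((hi i h1).2 h)⟩
        · exact ⟨fun _ => inter_subset_right, fun h => absurd hn h⟩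
      · refine ⟨B ∩ A (y (T n) n), (hF (T n) n B hB).1, fun i hi' => ?_⟩
        rcases Nat.lt_succ_iff_lt_or_eq.1 hi' with h1 | rfl
        · exact ⟨fun h => inter_subset_left.trans ((hi i h1).1 h),
            fun h => inter_subset_left.trans ((hi i h1).2 h)⟩
        · exact ⟨fun h => absurd h hn, fun _ => inter_subset_right⟩
  obtain ⟨B, hB, hi⟩ := key ((P ∪ M').sup id + 1)
  obtain ⟨k, hk⟩ := nonempty_of_measure_ne_zero ((T ((P ∪ M').sup id + 1)).2.2 B hB).2.2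
  have hlt : ∀ n ∈ P ∪ M', n < (P ∪ M').sup id + 1 := fun n hn =>
    Nat.lt_succ_of_le (Finset.le_sup (f := id) hn)
  exact ⟨k, fun n hn => (hi n (hlt n (Finset.mem_union_left _ hn))).1 hn hk,
    fun n hn => (hi n (hlt n (Finset.mem_union_right _ hn))).2
      (fun h => Finset.disjoint_left.1 hPM h hn) hk⟩

/-- Countably many closed sets approximate all the `A x` from inside the complement of `L x`. -/
theorem small_family {Γ S : Type*} [TopologicalSpace S] [SecondCountableTopology S]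
    (A L : Γ → Set K) (hA : ∀ x, IsOpen (A x)) (hL : ∀ x, IsOpen (L x)) (π : Γ → S)
    (h : ∀ (g : ℕ → Γ) (s : S), Tendsto (fun n => π (g n)) atTop (𝓝 s) →
      ¬ ∀ P M : Finset ℕ, Disjoint P M → ∃ k, (∀ n ∈ P, k ∈ L (g n)) ∧ ∀ n ∈ M, k ∈ A (g n)) :
    ∃ 𝓕 : Set (Set K), 𝓕.Countable ∧ (∀ F ∈ 𝓕, IsClosed F) ∧ ∀ x, ∀ δ > 0, ∃ F ∈ 𝓕,
      F ⊆ (L x)ᶜ ∧ μ.real (A x \ F) < δ := by
  have h1 : ∀ (m : ℕ) (s : S), ∃ W ∈ 𝓝 s, ∃ G : Finset (Set K), ∀ x, π x ∈ W →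
      μ.real (Bad G (A x) (L x)) < 1 / ((m : ℝ) + 1) := by
    intro m s
    by_contra hcon
    push Not at hcon
    obtain ⟨W, hW⟩ := (𝓝 s).exists_antitone_basis
    obtain ⟨g, hg, hg'⟩ := local_small μ A L hA hL (fun n => π ⁻¹' W n)
      (ε := 1 / ((m : ℝ) + 1)) (by positivity) (fun n G => hcon (W n) (hW.mem n) G)
      (fun i j hij => preimage_mono (hW.antitone hij))
    exact h g s (hW.tendsto hg) hg'
  choose W hW G hG using h1
  choose C hC hCc using fun m => TopologicalSpace.countable_cover_nhds (hW m)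
  let 𝓖 : Set (Set K) := ⋃ m, ⋃ s ∈ C m, {F | F ∈ G m s ∧ IsClosed F}
  have hGc : 𝓖.Countable := countable_iUnion fun m => (hC m).biUnion fun s _ =>
    (G m s).countable_toSet.mono fun F hF => hF.1
  refine ⟨sUnion '' {T | T.Finite ∧ T ⊆ 𝓖}, (countable_ofPred_finite_subset hGc).image _, ?_, ?_⟩
  · rintro _ ⟨T, hT, rfl⟩
    rw [sUnion_eq_biUnion]
    refine hT.1.isClosed_biUnion fun F hF => ?_
    obtain ⟨m, hm⟩ := mem_iUnion.1 (hT.2 hF)
    obtain ⟨s, -, hs⟩ := mem_iUnion₂.1 hm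
    exact hs.2
  · intro x δ hδ
    obtain ⟨m, hm⟩ := exists_nat_one_div_lt hδ
    obtain ⟨s, hs, hxs⟩ := mem_iUnion₂.1 ((hCc m).symm.subset (mem_univ (π x)))
    refine ⟨⋃₀ {F | F ∈ G m s ∧ IsClosed F ∧ F ⊆ (L x)ᶜ}, mem_image_of_mem _
      ⟨(G m s).finite_toSet.subset fun F hF => hF.1, fun F hF =>
        mem_iUnion.2 ⟨m, mem_iUnion₂.2 ⟨s, hs, hF.1, hF.2.1⟩⟩⟩,
      sUnion_subset fun F hF => hF.2.2, ?_⟩
    refine lt_of_le_of_lt (measureReal_mono (s₂ := Bad (G m s) (A x) (L x))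
      fun k hk F hF hc hkF => ⟨⟨k, hkF, hk.1⟩, ?_⟩) ((hG m s x hxs).trans hm)
    by_contra hne
    exact hk.2 (mem_sUnion_of_mem hkF ⟨hF, hc, fun z hz hz' => hne ⟨z, hz, hz'⟩⟩)

theorem inner_upper {Γ S : Type*} [TopologicalSpace S] [SecondCountableTopology S]
    (e : Γ → K → ℝ) (he : ∀ x, Continuous (e x))
    (h : ∀ a b : ℝ, a < b → ∃ π : Γ → S, ∀ (g : ℕ → Γ) (s : S),
      Tendsto (fun n => π (g n)) atTop (𝓝 s) → ¬ ∀ P M : Finset ℕ, Disjoint P M →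
        ∃ k, (∀ n ∈ P, e (g n) k < a) ∧ ∀ n ∈ M, b < e (g n) k) :
    ∃ 𝓕 : Set (Set K), 𝓕.Countable ∧ (∀ F ∈ 𝓕, IsClosed F) ∧ ∀ x c, ∀ δ > 0, ∃ F ∈ 𝓕,
      F ⊆ {k | c < e x k} ∧ μ.real ({k | c < e x k} \ F) < δ := by
  have h1 : ∀ a b : ℚ, ∃ 𝓕 : Set (Set K), 𝓕.Countable ∧ (∀ F ∈ 𝓕, IsClosed F) ∧
      ((a : ℝ) < b → ∀ x, ∀ δ > 0, ∃ F ∈ 𝓕,
        F ⊆ {k | e x k < a}ᶜ ∧ μ.real ({k | (b : ℝ) < e x k} \ F) < δ) := by
    intro a b
    by_cases hab : (a : ℝ) < b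
    · obtain ⟨π, hπ⟩ := h a b hab
      obtain ⟨𝓕, h1, h2, h3⟩ := small_family μ (fun x => {k | (b : ℝ) < e x k})
        (fun x => {k | e x k < a}) (fun x => isOpen_lt continuous_const (he x))
        (fun x => isOpen_lt (he x) continuous_const) π hπ
      exact ⟨𝓕, h1, h2, fun _ => h3⟩
    · exact ⟨∅, countable_empty, by simp, fun h => (hab h).elim⟩
  choose 𝓕 hc hcl h𝓕 using h1
  refine ⟨⋃ a, ⋃ b, 𝓕 a b, countable_iUnion fun a => countable_iUnion (hc a), ?_, ?_⟩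
  · intro F hF
    simp only [mem_iUnion] at hF
    obtain ⟨a, b, hF⟩ := hF
    exact hcl a b F hF
  · intro x c δ hδ
    obtain ⟨N, hN⟩ := upper_approx μ (e x) (he x) c (show 0 < δ / 2 by positivity)
    have hNpos : (0 : ℝ) < 1 / ((N : ℝ) + 1) := by positivity
    obtain ⟨b, hb1, hb2⟩ := exists_rat_btwn (show c < c + 1 / ((N : ℝ) + 1) by linarith)
    obtain ⟨a, ha1, ha2⟩ := exists_rat_btwn hb1
    obtain ⟨F, hF, f1, f2⟩ := h𝓕 a b ha2 x (δ / 2) (by positivity)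
    refine ⟨F, mem_iUnion₂.2 ⟨a, b, hF⟩, fun k hk => ha1.trans_le (not_lt.1 (f1 hk)), ?_⟩
    have h6 : μ.real ({k | c < e x k} \ F) ≤
        μ.real ({k | c < e x k} \ {k | c + 1 / ((N : ℝ) + 1) < e x k}) +
        μ.real ({k | (b : ℝ) < e x k} \ F) := by
      refine real_le_add fun z hz => ?_
      by_cases hz2 : c + 1 / ((N : ℝ) + 1) < e x z
      · exact Or.inr ⟨lt_trans hb2 hz2, hz.2⟩
      · exact Or.inl ⟨hz.1, hz2⟩
    linarith

/-- From the subbasic open sets to all open sets. -/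
theorem cd_of_inner {X : Type*} (e : X → K → ℝ) (hind : IsInducing (fun k x => e x k))
    {𝓕1 𝓕2 : Set (Set K)} (a1 : 𝓕1.Countable) (a2 : ∀ F ∈ 𝓕1, IsClosed F)
    (a3 : ∀ x c, ∀ δ > 0, ∃ F ∈ 𝓕1, F ⊆ {k | c < e x k} ∧ μ.real ({k | c < e x k} \ F) < δ)
    (b1 : 𝓕2.Countable) (b2 : ∀ F ∈ 𝓕2, IsClosed F)
    (b3 : ∀ x c, ∀ δ > 0, ∃ F ∈ 𝓕2, F ⊆ {k | e x k < c} ∧ μ.real ({k | e x k < c} \ F) < δ) :
    ∃ 𝓕 : Set (Set K), 𝓕.Countable ∧ (∀ F ∈ 𝓕, IsClosed F) ∧ ∅ ∈ 𝓕 ∧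
      (∀ F ∈ 𝓕, ∀ G ∈ 𝓕, F ∪ G ∈ 𝓕) ∧
      ∀ U, IsOpen U → ∀ δ > 0, ∃ F ∈ 𝓕, F ⊆ U ∧ μ.real (U \ F) < δ := by
  have he : ∀ x, Continuous (e x) := fun x => (continuous_apply x).comp hind.continuous
  obtain ⟨𝓕, h1, h2, h3, h4, h5, h6, h7⟩ := exists_lattice (a1.union b1)
    (fun F hF => hF.elim (a2 F) (b2 F))
  refine ⟨𝓕, h1, h2, h4, h6, ?_⟩
  let P : Set K → Prop := fun U => ∀ δ > 0, ∃ F ∈ 𝓕, F ⊆ U ∧ μ.real (U \ F) < δ
  have Punion : ∀ U V, P U → P V → P (U ∪ V) := by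
    intro U V hU hV δ hδ
    obtain ⟨F, hF, hF1, hF2⟩ := hU (δ / 2) (by positivity)
    obtain ⟨G, hG, hG1, hG2⟩ := hV (δ / 2) (by positivity)
    refine ⟨F ∪ G, h6 F hF G hG, union_subset_union hF1 hG1, ?_⟩
    have : μ.real ((U ∪ V) \ (F ∪ G)) ≤ μ.real (U \ F) + μ.real (V \ G) := by
      refine real_le_add ?_
      intro z hz
      simp only [Set.mem_sdiff, mem_union] at hz ⊢
      tauto
    linarith
  have Pinter : ∀ U V, P U → P V → P (U ∩ V) := by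
    intro U V hU hV δ hδ
    obtain ⟨F, hF, hF1, hF2⟩ := hU (δ / 2) (by positivity)
    obtain ⟨G, hG, hG1, hG2⟩ := hV (δ / 2) (by positivity)
    refine ⟨F ∩ G, h7 F hF G hG, inter_subset_inter hF1 hG1, ?_⟩
    have : μ.real ((U ∩ V) \ (F ∩ G)) ≤ μ.real (U \ F) + μ.real (V \ G) := by
      refine real_le_add ?_
      intro z hz
      simp only [Set.mem_sdiff, mem_union, mem_inter_iff] at hz ⊢
      tauto
    linarith
  have Pempty : P ∅ := fun δ hδ => ⟨∅, h4, Subset.rfl, by simpa using hδ⟩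
  have Pfin : ∀ T : Set (Set K), T.Finite → (∀ U ∈ T, P U) → P (⋃₀ T) := by
    intro T hT
    induction T, hT using Set.Finite.induction_on with
    | empty => intro _; simpa using Pempty
    | @insert U T _ _ ih =>
      intro h
      rw [sUnion_insert]
      exact Punion _ _ (h U (mem_insert _ _)) (ih fun V hV => h V (mem_insert_of_mem _ hV))
  have o1 : ∀ x c, IsOpen (e x ⁻¹' Ioi c) := fun x c => isOpen_Ioi.preimage (he x)
  have o2 : ∀ x c, IsOpen (e x ⁻¹' Iio c) := fun x c => isOpen_Iio.preimage (he x)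
  intro U hU
  obtain ⟨V, hV, rfl⟩ := hind.isOpen_iff.1 hU
  let t : TopologicalSpace K :=
    { IsOpen := fun U => IsOpen[tK] U ∧ P U
      isOpen_univ := ⟨isOpen_univ, fun δ hδ => ⟨univ, h5, Subset.rfl, by simpa using hδ⟩⟩
      isOpen_inter := fun U V hU hV => ⟨hU.1.inter hV.1, Pinter U V hU.2 hV.2⟩
      isOpen_sUnion := by
        intro T hT
        have ho : IsOpen[tK] (⋃₀ T) := isOpen_sUnion fun U hU => (hT U hU).1
        refine ⟨ho, fun δ hδ => ?_⟩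
        obtain ⟨C, c1, c2, c3⟩ := exists_compact_real μ ho.measurableSet
          (show 0 < δ / 2 by positivity)
        rw [sUnion_eq_biUnion] at c1
        obtain ⟨T', t1, t2, t3⟩ := c2.elim_finite_subcover_image (fun U hU => (hT U hU).1) c1
        rw [← sUnion_eq_biUnion] at t3
        obtain ⟨F, hF, hF1, hF2⟩ := Pfin T' t2 (fun U hU => (hT U (t1 hU)).2) (δ / 2)
          (by positivity)
        refine ⟨F, hF, hF1.trans (sUnion_subset_sUnion t1), ?_⟩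
        have : μ.real (⋃₀ T \ F) ≤ μ.real (⋃₀ T \ C) + μ.real (⋃₀ T' \ F) := by
          refine real_le_add ?_
          intro z hz
          by_cases hzC : z ∈ C
          · exact Or.inr ⟨t3 hzC, hz.2⟩
          · exact Or.inl ⟨hz.1, hzC⟩
        linarith }
  have hcont : Continuous[t, _] (fun k x => e x k) := by
    refine @continuous_pi _ _ _ t _ _ fun x => ?_
    refine (@OrderTopology.continuous_iff ℝ K _ _ _ t _).2 fun c => ⟨⟨?_, ?_⟩, ⟨?_, ?_⟩⟩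
    · exact o1 x c
    · intro δ hδ
      obtain ⟨F, hF, hF1, hF2⟩ := a3 x c δ hδ
      exact ⟨F, h3 (Or.inl hF), hF1, hF2⟩
    · exact o2 x c
    · intro δ hδ
      obtain ⟨F, hF, hF1, hF2⟩ := b3 x c δ hδ
      exact ⟨F, h3 (Or.inr hF), hF1, hF2⟩
  exact (@IsOpen.preimage _ _ t _ _ hcont V hV).2

/-- Measures are countably determined, hence have metrizable-like support. -/
theorem main {Γ S : Type*} [TopologicalSpace S] [SecondCountableTopology S]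
    (e : Γ → K → ℝ) (he : ∀ x, Continuous (e x))
    (hsep : ∀ k k', (∀ x, e x k = e x k') → k = k')
    (h : ∀ a b : ℝ, a < b → ∃ π : Γ → S, ∀ (g : ℕ → Γ) (s : S),
      Tendsto (fun n => π (g n)) atTop (𝓝 s) → ¬ ∀ P M : Finset ℕ, Disjoint P M →
        ∃ k, (∀ n ∈ P, e (g n) k < a) ∧ ∀ n ∈ M, b < e (g n) k) :
    ∃ 𝒜 : ℕ → Set (Set K),
      (∀ i, (𝒜 i).Finite ∧ (∀ A ∈ 𝒜 i, IsCompact A) ∧ (𝒜 i).PairwiseDisjoint id) ∧
      ∀ 𝒰 : Set (Set K), (∀ U ∈ 𝒰, IsOpen U) → ⋃₀ 𝒰 = univ → ∀ ε : ℝ, 0 < ε →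
        ∃ i, (∀ A ∈ 𝒜 i, ∃ U ∈ 𝒰, A ⊆ U) ∧ μ (⋃₀ 𝒜 i)ᶜ < ENNReal.ofReal ε := by
  have hind : IsInducing (fun k x => e x k) :=
    ((continuous_pi he).isClosedEmbedding fun k k' hk => hsep k k' (congrFun hk)).isInducing
  obtain ⟨𝓕1, a1, a2, a3⟩ := inner_upper μ e he h
  obtain ⟨𝓕2, b1, b2, b3⟩ := inner_upper (S := S) μ (fun x k => -e x k) (fun x => (he x).neg)
    fun a b hab => by
      obtain ⟨π, hπ⟩ := h (-b) (-a) (by linarith)
      refine ⟨π, fun g s hs hI => hπ g s hs fun P M hPM => ?_⟩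
      obtain ⟨k, h1, h2⟩ := hI M P hPM.symm
      exact ⟨k, fun n hn => by linarith [h2 n hn], fun n hn => by linarith [h1 n hn]⟩
  obtain ⟨𝓕, h1, h2, h3, h4, h5⟩ := cd_of_inner μ e hind a1 a2 a3 b1 b2 fun x c δ hδ => by
    simpa only [neg_lt_neg_iff] using b3 x (-c) δ hδ
  exact mls_of_cd μ h1 h2 h3 h4 h5

end Pool.Agent.Lib.MP_b8145f_gt.Tame
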