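import Pool.Agent.Lib.MP_b8145f_gt.Split

set_option autoImplicit false
set_option linter.unusedSectionVars false

open Set Filter Topology MeasureTheory

namespace Pool.Agent.Lib.MP_b8145f_gt

section Tree

variable {X Ω : Type*} [MetricSpace X] [MeasurableSpace Ω] {μ : Measure Ω}
  [IsProbabilityMeasure μ]

/-- The oscillation set of `Z`. -/
def Osc (A L : X → Set Ω) (Z : Set X) : Set Ω := (⋃ p ∈ Z, A p) ∩ ⋃ q ∈ Z, L q

variable {A L : X → Set Ω}

theorem Osc_mono {Z Z' : Set X} (h : Z ⊆ Z') : Osc A L Z ⊆ Osc A L Z' :=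
  inter_subset_inter (biUnion_subset_biUnion_left h) (biUnion_subset_biUnion_left h)

theorem Osc_meas (hA : ∀ p, MeasurableSet (A p)) (hL : ∀ p, MeasurableSet (L p)) {Z : Set X}
    (hZ : Z.Countable) : MeasurableSet (Osc A L Z) :=
  (MeasurableSet.biUnion hZ fun p _ => hA p).inter (MeasurableSet.biUnion hZ fun p _ => hL p)

theorem Good.le_osc {ε : ℝ} {Z : Set X} (h : Good μ A L ε Z) : ε ≤ μ.real (Osc A L Z) := by
  refine le_of_forall_lt fun r hr => ?_
  obtain ⟨p, hp, h⟩ := h.big r hr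
  refine h.trans_le (measureReal_mono ?_)
  exact inter_subset_inter_left _ (subset_biUnion_of_mem (u := A) hp)

theorem Good.stable (hA : ∀ p, MeasurableSet (A p)) (hL : ∀ p, MeasurableSet (L p))
    {ε : ℝ} {Z : Set X} (h : Good μ A L ε Z) {δ : ℝ} (hδ : 0 < δ) :
    ∃ Y, Y ⊆ Z ∧ Good μ A L ε Y ∧
      ∀ Y', Y' ⊆ Y → Good μ A L ε Y' → μ.real (Osc A L Y \ Osc A L Y') < δ := by
  let R : Set ℝ := {t | ∃ Y, Y ⊆ Z ∧ Good μ A L ε Y ∧ μ.real (Osc A L Y) = t}
  have hRne : R.Nonempty := ⟨_, Z, Subset.rfl, h, rfl⟩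
  have hRb : BddBelow R := by
    refine ⟨0, ?_⟩
    rintro _ ⟨Y, -, -, rfl⟩
    exact measureReal_nonneg
  obtain ⟨t, ⟨Y, h1, h2, rfl⟩, h3⟩ := exists_lt_of_csInf_lt hRne (show sInf R < sInf R + δ by linarith)
  refine ⟨Y, h1, h2, fun Y' h4 h5 => ?_⟩
  have h6 : sInf R ≤ μ.real (Osc A L Y') := csInf_le hRb ⟨Y', h4.trans h1, h5, rfl⟩
  rw [measureReal_sdiff (Osc_mono h4) (Osc_meas hA hL h5.1)]
  linarith

/-- The invariant of the tree construction. -/
def Inv (μ : Measure Ω) (A L : X → Set Ω) (ε : ℝ) {ι : Type*} (Z : ι → Set X) : Prop :=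
  (∀ i, Good μ A L ε (Z i)) ∧ ∃ β > 0, ∀ Z' : ι → Set X,
    (∀ i, Z' i ⊆ Z i ∧ Good μ A L ε (Z' i)) → β ≤ μ.real (⋂ i, Osc A L (Z' i))

theorem Inv.double (hA : ∀ p, MeasurableSet (A p)) (hL : ∀ p, MeasurableSet (L p))
    {ε : ℝ} {ι : Type*} [Fintype ι] {Z : ι → Set X} (h : Inv μ A L ε Z) :
    ∃ Y : ι → Set X, (∀ i, Y i ⊆ Z i ∧ Good μ A L ε (Y i)) ∧ μ (⋂ i, Osc A L (Y i)) ≠ 0 ∧
      ∀ W : ι × Bool → Set X, (∀ j, W j ⊆ Y j.1 ∧ Good μ A L ε (W j)) → Inv μ A L ε W := by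
  obtain ⟨hg, β, hβ, h⟩ := h
  set N : ℝ := (Fintype.card (ι × Bool) : ℝ) with hN
  have hN0 : 0 ≤ N := by rw [hN]; positivity
  set δ : ℝ := β / (2 * (N + 1)) with hδ
  have hδ0 : 0 < δ := by rw [hδ]; positivity
  choose Y hY1 hY2 hY3 using fun i => (hg i).stable hA hL hδ0
  have hβY := h Y fun i => ⟨hY1 i, hY2 i⟩
  refine ⟨Y, fun i => ⟨hY1 i, hY2 i⟩, ?_, ?_⟩
  · intro h0
    have : μ.real (⋂ i, Osc A L (Y i)) = 0 := by simp [Measure.real, h0]
    linarith
  · intro W hW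
    refine ⟨fun j => (hW j).2, β / 2, by positivity, fun Z' hZ' => ?_⟩
    have h1 : μ.real (⋂ i, Osc A L (Y i)) ≤ μ.real (⋂ j, Osc A L (Z' j)) +
        μ.real (⋃ j : ι × Bool, Osc A L (Y j.1) \ Osc A L (Z' j)) := by
      refine real_le_add ?_
      intro z hz
      by_cases h : z ∈ ⋂ j, Osc A L (Z' j)
      · exact Or.inl h
      · right
        rw [mem_iInter] at h hz
        push Not at h
        obtain ⟨j, hj⟩ := h
        exact mem_iUnion.2 ⟨j, hz j.1, hj⟩
    have h2 : μ.real (⋃ j : ι × Bool, Osc A L (Y j.1) \ Osc A L (Z' j)) ≤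
        ∑ j : ι × Bool, μ.real (Osc A L (Y j.1) \ Osc A L (Z' j)) :=
      measureReal_iUnion_fintype_le _
    have h3 : ∑ j : ι × Bool, μ.real (Osc A L (Y j.1) \ Osc A L (Z' j)) ≤ ∑ _j : ι × Bool, δ :=
      Finset.sum_le_sum fun j _ =>
        (hY3 j.1 (Z' j) ((hZ' j).1.trans (hW j).1) (hZ' j).2).le
    have h4 : ∑ _j : ι × Bool, δ = N * δ := by
      rw [Finset.sum_const, Finset.card_univ, nsmul_eq_mul]
    have h5 : N * δ ≤ β / 2 := by
      have : (N + 1) * δ = β / 2 := by rw [hδ]; field_simp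
      nlinarith
    linarith

theorem Inv.reindex {ε : ℝ} {ι κ : Type*} (φ : κ ≃ ι) {Z : ι → Set X} (h : Inv μ A L ε Z) :
    Inv μ A L ε (fun k => Z (φ k)) := by
  obtain ⟨hg, β, hβ, h⟩ := h
  refine ⟨fun k => hg _, β, hβ, fun Z' hZ' => ?_⟩
  have h1 := h (fun i => Z' (φ.symm i)) fun i => by
    have := hZ' (φ.symm i)
    simpa using this
  refine h1.trans (measureReal_mono ?_)
  intro z hz
  rw [mem_iInter] at hz ⊢
  intro k
  simpa using hz (φ k)

theorem Good.shrink {ε : ℝ} {Z : Set X} (h : Good μ A L ε Z) {P : X → Prop}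
    (hP : ∃ p ∈ Z, ∃ r > 0, ∀ x ∈ closure Z, dist x p < r → P x) {η : ℝ} (hη : 0 < η) :
    ∃ Z', Z' ⊆ Z ∧ Good μ A L ε Z' ∧ (∀ x ∈ closure Z', P x) ∧
      ∃ p, closure Z' ⊆ Metric.closedBall p η := by
  obtain ⟨p, hp, r, hr, hP⟩ := hP
  have hr' : 0 < min (r / 2) η := lt_min (by positivity) hη
  have hcl : closure (Z ∩ Metric.ball p (min (r / 2) η)) ⊆ Metric.closedBall p (min (r / 2) η) :=
    closure_minimal (inter_subset_right.trans Metric.ball_subset_closedBall)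
      Metric.isClosed_closedBall
  refine ⟨Z ∩ Metric.ball p (min (r / 2) η), inter_subset_left, h.inter_ball hp hr', ?_, p, ?_⟩
  · intro x hx
    refine hP x (closure_mono inter_subset_left hx) ?_
    have h1 : dist x p ≤ min (r / 2) η := hcl hx
    have h2 := min_le_left (r / 2) η
    linarith
  · exact hcl.trans (Metric.closedBall_subset_closedBall (min_le_right _ _))

end Tree

section Final

variable {X K : Type*} [MetricSpace X] [CompleteSpace X]
    [TopologicalSpace K] [CompactSpace K] [MeasurableSpace K] [OpensMeasurableSpace K]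
    {μ : Measure K} [IsProbabilityMeasure μ]

theorem Inv.step (e : X → K → ℝ) (he : ∀ x, Continuous (e x)) (hF : ∀ k, Frag (fun x => e x k))
    {a a' b' b : ℝ} (ha : a < a') (hb : b' < b) {ε : ℝ} {ι : Type*} [Fintype ι] {Z : ι → Set X}
    (h : Inv μ (fun y => {k | b < e y k}) (fun y => {k | e y k < a}) ε Z) {η : ℝ} (hη : 0 < η) :
    ∃ (k : K) (W : ι × Bool → Set X),
      Inv μ (fun y => {k | b < e y k}) (fun y => {k | e y k < a}) ε W ∧
      ∀ j, W j ⊆ Z j.1 ∧ (∀ x ∈ closure (W j), (j.2 = true → b' ≤ e x k) ∧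
        (j.2 = false → e x k ≤ a')) ∧ ∃ p, closure (W j) ⊆ Metric.closedBall p η := by
  set A : X → Set K := fun y => {k | b < e y k} with hAdef
  set L : X → Set K := fun y => {k | e y k < a} with hLdef
  have hA : ∀ y, MeasurableSet (A y) := fun y =>
    (isOpen_lt continuous_const (he y)).measurableSet
  have hL : ∀ y, MeasurableSet (L y) := fun y =>
    (isOpen_lt (he y) continuous_const).measurableSet
  obtain ⟨Y, hY, hY0, hYI⟩ := h.double hA hL
  have hae : ∀ᵐ k ∂μ, ∀ i, ((∃ p ∈ Y i, k ∈ A p) → Good μ A L ε {p | p ∈ Y i ∧ k ∈ A p}) ∧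
      ((∃ p ∈ Y i, k ∈ L p) → Good μ A L ε {p | p ∈ Y i ∧ k ∈ L p}) := by
    rw [ae_all_iff]
    intro i
    exact ((hY i).2.split hA hL A hA fun p q r hq => hq.2.2.1).and
      ((hY i).2.split hA hL L hL fun p q r hq => hq.2.2.2)
  obtain ⟨k, hk, hk2⟩ := Measure.exists_mem_of_measure_ne_zero_of_ae hY0 (ae_restrict_of_ae hae)
  rw [mem_iInter] at hk
  have hW : ∀ j : ι × Bool, ∃ W, W ⊆ Y j.1 ∧ Good μ A L ε W ∧
      (∀ x ∈ closure W, (j.2 = true → b' ≤ e x k) ∧ (j.2 = false → e x k ≤ a')) ∧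
      ∃ p, closure W ⊆ Metric.closedBall p η := by
    rintro ⟨i, c⟩
    cases c with
    | true =>
      have hg : Good μ A L ε {p | p ∈ Y i ∧ k ∈ A p} := by
        refine (hk2 i).1 ?_
        obtain ⟨p, hp, h⟩ := mem_iUnion₂.1 (hk i).1
        exact ⟨p, hp, h⟩
      obtain ⟨W, h1, h2, h3, h4⟩ := hg.shrink
        ((hF k).shrink_ge hb hg.2.1 fun x hx => le_of_lt hx.2) hη
      exact ⟨W, fun x hx => (h1 hx).1, h2, fun x hx => ⟨fun _ => h3 x hx, by simp⟩, h4⟩
    | false =>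
      have hg : Good μ A L ε {p | p ∈ Y i ∧ k ∈ L p} := by
        refine (hk2 i).2 ?_
        obtain ⟨p, hp, h⟩ := mem_iUnion₂.1 (hk i).2
        exact ⟨p, hp, h⟩
      obtain ⟨W, h1, h2, h3, h4⟩ := hg.shrink
        ((hF k).shrink_le ha hg.2.1 fun x hx => le_of_lt hx.2) hη
      exact ⟨W, fun x hx => (h1 hx).1, h2, fun x hx => ⟨by simp, fun _ => h3 x hx⟩, h4⟩
  choose W hW1 hW2 hW3 hW4 using hW
  exact ⟨k, W, hYI W fun j => ⟨hW1 j, hW2 j⟩,
    fun j => ⟨(hW1 j).trans (hY j.1).1, hW3 j, hW4 j⟩⟩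

/-- Splitting off the last coordinate. -/
def lastEquiv (n : ℕ) : (Fin (n + 1) → Bool) ≃ (Fin n → Bool) × Bool where
  toFun s := (Fin.init s, s (Fin.last n))
  invFun j := Fin.snoc j.1 j.2
  left_inv s := by simp
  right_inv j := by simp

theorem no_good (e : X → K → ℝ) (he : ∀ x, Continuous (e x)) (hF : ∀ k, Frag (fun x => e x k))
    {a b : ℝ} (hab : a < b) {ε : ℝ} (hε : 0 < ε) (Z0 : Set X) :
    ¬ Good μ (fun y => {k | b < e y k}) (fun y => {k | e y k < a}) ε Z0 := by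
  intro hZ0
  set A : X → Set K := fun y => {k | b < e y k} with hAdef
  set L : X → Set K := fun y => {k | e y k < a} with hLdef
  set a' : ℝ := (2 * a + b) / 3 with ha'
  set b' : ℝ := (a + 2 * b) / 3 with hb'
  let St : ℕ → Type _ := fun n => {Z : (Fin n → Bool) → Set X // Inv μ A L ε Z}
  have hstep : ∀ n (s : St n), ∃ (k : K) (s' : St (n + 1)), ∀ t : Fin (n + 1) → Bool,
      s'.1 t ⊆ s.1 (Fin.init t) ∧ (∀ x ∈ closure (s'.1 t), (t (Fin.last n) = true → b' ≤ e x k) ∧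
        (t (Fin.last n) = false → e x k ≤ a')) ∧
        ∃ p, closure (s'.1 t) ⊆ Metric.closedBall p (1 / ((n : ℝ) + 1)) := by
    intro n s
    obtain ⟨k, W, hW, h⟩ := Inv.step e he hF (a' := a') (b' := b') (by rw [ha']; linarith)
      (by rw [hb']; linarith) s.2 (η := 1 / ((n : ℝ) + 1)) (by positivity)
    exact ⟨k, ⟨fun t => W (lastEquiv n t), hW.reindex (lastEquiv n)⟩, fun t => h (lastEquiv n t)⟩
  choose u F hF1 hF2 hF3 using hstep
  let s0 : St 0 := ⟨fun _ => Z0, fun _ => hZ0, ε, hε, fun Z' hZ' => by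
    refine (hZ' default).2.le_osc.trans (measureReal_mono ?_)
    refine subset_iInter fun i => ?_
    rw [Subsingleton.elim i default]⟩
  let s : ∀ n, St n := fun n => Nat.rec s0 (fun n t => F n t) n
  have hs : ∀ n, s (n + 1) = F n (s n) := fun n => rfl
  let C : (ℕ → Bool) → ℕ → Set X := fun σ n => closure ((s n).1 fun i => σ i)
  have hCanti : ∀ σ, Antitone (C σ) := by
    intro σ
    refine antitone_nat_of_succ_le fun n => closure_mono ?_
    rw [hs]
    exact hF1 n (s n) fun i => σ i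
  have hCne : ∀ σ n, (C σ n).Nonempty := fun σ n => ((s n).2.1 _).2.1.mono subset_closure
  have hCball : ∀ σ n, ∃ p, C σ (n + 1) ⊆ Metric.closedBall p (1 / ((n : ℝ) + 1)) :=
    fun σ n => hF3 n (s n) fun i => σ i
  have hCdist : ∀ σ n, ∀ x ∈ C σ (n + 1), ∀ y ∈ C σ (n + 1), dist x y ≤ 2 * (1 / ((n : ℝ) + 1)) := by
    intro σ n x hx y hy
    obtain ⟨p, hp⟩ := hCball σ n
    have h1 : dist x p ≤ _ := hp hx
    have h2 : dist y p ≤ _ := hp hy
    have h3 := dist_triangle_right x y p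
    linarith
  have hex : ∀ σ, (⋂ n, C σ (n + 1)).Nonempty := by
    intro σ
    refine Metric.nonempty_iInter_of_nonempty_biInter (fun n => isClosed_closure) ?_ ?_ ?_
    · intro n
      obtain ⟨p, hp⟩ := hCball σ n
      exact Metric.isBounded_closedBall.subset hp
    · intro N
      refine (hCne σ (N + 1)).mono ?_
      refine subset_iInter₂ fun n hn => hCanti σ (Nat.succ_le_succ hn)
    · have h1 : Tendsto (fun n : ℕ => 2 * (1 / ((n : ℝ) + 1))) atTop (𝓝 (2 * 0)) :=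
        tendsto_one_div_add_atTop_nhds_zero_nat.const_mul 2
      rw [mul_zero] at h1
      refine squeeze_zero (fun n => Metric.diam_nonneg) (fun n => ?_) h1
      exact Metric.diam_le_of_forall_dist_le (by positivity) (hCdist σ n)
  choose x hx using hex
  simp only [mem_iInter] at hx
  have hclose : ∀ (σ : ℕ → Bool) (c : Bool),
      x σ ∈ closure (x '' {τ | ∀ᶠ n in atTop, τ n = c}) := by
    intro σ c
    rw [Metric.mem_closure_iff]
    intro r hr
    obtain ⟨n, hn⟩ := exists_nat_one_div_lt (show 0 < r / 2 by positivity)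
    let τ : ℕ → Bool := fun m => if m ≤ n then σ m else c
    refine ⟨x τ, mem_image_of_mem _ ?_, ?_⟩
    · show ∀ᶠ m in atTop, τ m = c
      filter_upwards [eventually_gt_atTop n] with m hm
      simp [τ, not_le.2 hm]
    · have h1 : C τ (n + 1) = C σ (n + 1) := by
        have : (fun i : Fin (n + 1) => τ i) = fun i : Fin (n + 1) => σ i := by
          funext i
          simp [τ, Nat.lt_succ_iff.1 i.2]
        simp only [C, this]
      have h2 := hCdist σ n (x σ) (hx σ n) (x τ) (h1 ▸ hx τ n)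
      linarith
  have hfin := final_contra e he hF (fun n => u n (s n)) (a := a') (b := b')
    (by rw [ha', hb']; linarith) (x '' {τ | ∀ᶠ n in atTop, τ n = false})
    (x '' {τ | ∀ᶠ n in atTop, τ n = true}) ?_ ?_ ?_ ?_
  · have : x (fun _ => false) ∈ x '' {τ | ∀ᶠ n in atTop, τ n = false} :=
      mem_image_of_mem _ (Eventually.of_forall fun _ => rfl)
    rw [hfin] at this
    exact this
  · rintro _ ⟨σ, -, rfl⟩
    exact hclose σ true
  · rintro _ ⟨σ, -, rfl⟩
    exact hclose σ false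
  · rintro _ ⟨σ, hσ, rfl⟩
    filter_upwards [hσ] with n hn
    exact (hF2 n (s n) (fun i => σ i) (x σ) (hx σ n)).2 hn
  · rintro _ ⟨σ, hσ, rfl⟩
    filter_upwards [hσ] with n hn
    exact (hF2 n (s n) (fun i => σ i) (x σ) (hx σ n)).1 hn

end Final

end Pool.Agent.Lib.MP_b8145f_gt
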